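import Mathlib

/-!
Digits of a natural number in base `2 ^ w`; arithmetic on all digits at once.
-/

namespace Pool.Agent.Lib.MP_1f96ff_gt.Ck

/-- Force the value of `x`. -/
def frc {α : Type} (x : ℕ) (k : ℕ → α) : α :=
  Nat.rec (motive := fun _ => α) (k 0) (fun n _ => k (Nat.succ n)) x

@[simp] theorem frc_eq {α : Type} (x : ℕ) (k : ℕ → α) : frc x k = k x := by cases x <;> rfl

/-- The digit number `u` in base `2 ^ w`. -/
def sl (w N u : ℕ) : ℕ := N >>> (w * u) % 2 ^ w

/-- `K` digits `1` in base `2 ^ w`. -/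
def ones (w K : ℕ) : ℕ :=
  Nat.div (Nat.sub (Nat.pow 2 (Nat.mul w K)) 1) (Nat.sub (Nat.pow 2 w) 1)

variable {w a b c u : ℕ}

theorem tb_sl (w N u r : ℕ) :
    (sl w N u).testBit r = (decide (r < w) && N.testBit (w * u + r)) := by
  rw [sl, Nat.testBit_mod_two_pow, Nat.testBit_shiftRight]

theorem tb_sl' {r : ℕ} (h : r < w) : (sl w a u).testBit r = a.testBit (w * u + r) := by
  simp [tb_sl, h]

theorem sl_lt (w N u : ℕ) : sl w N u < 2 ^ w := Nat.mod_lt _ (Nat.two_pow_pos w)

theorem sl_zero' (w a : ℕ) : sl w a 0 = a % 2 ^ w := by simp [sl]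

theorem sl_succ (w a u : ℕ) : sl w a (u + 1) = sl w (a / 2 ^ w) u := by
  rw [sl, sl, ← Nat.shiftRight_eq_div_pow, ← Nat.shiftRight_add, Nat.mul_succ, add_comm]

@[simp] theorem sl_zero (w u : ℕ) : sl w 0 u = 0 := by simp [sl]

theorem sl_land (w a b u : ℕ) : sl w (Nat.land a b) u = sl w a u &&& sl w b u :=
  Nat.eq_of_testBit_eq fun r => by
    show (sl w (a &&& b) u).testBit r = _
    simp only [tb_sl, Nat.testBit_and]
    cases decide (r < w) <;> simp

theorem sl_lor (w a b u : ℕ) : sl w (Nat.lor a b) u = sl w a u ||| sl w b u :=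
  Nat.eq_of_testBit_eq fun r => by
    show (sl w (a ||| b) u).testBit r = _
    simp only [tb_sl, Nat.testBit_or]
    cases decide (r < w) <;> simp

theorem sl_xor (w a b u : ℕ) : sl w (Nat.xor a b) u = sl w a u ^^^ sl w b u :=
  Nat.eq_of_testBit_eq fun r => by
    show (sl w (a ^^^ b) u).testBit r = _
    simp only [tb_sl, Nat.testBit_xor]
    cases decide (r < w) <;> simp

theorem sl_ext (hw : 0 < w) (h : ∀ u, sl w a u = sl w b u) : a = b :=
  Nat.eq_of_testBit_eq fun p => by
    have hr := Nat.mod_lt p hw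
    rw [← Nat.div_add_mod p w, ← tb_sl' hr, h, tb_sl' hr]

theorem sl_add (h : ∀ u, sl w a u + sl w b u < 2 ^ w) (u : ℕ) :
    sl w (Nat.add a b) u = sl w a u + sl w b u := by
  show sl w (a + b) u = _
  induction u generalizing a b with
  | zero =>
    have := h 0
    simp only [sl_zero'] at *
    rw [Nat.add_mod, Nat.mod_eq_of_lt this]
  | succ u ih =>
    have := h 0
    simp only [sl_zero'] at this
    rw [sl_succ, Nat.add_div_eq_of_add_mod_lt this, ih fun u => by
      rw [← sl_succ, ← sl_succ]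
      exact h _, ← sl_succ, ← sl_succ]

theorem sl_le (hw : 0 < w) (h : ∀ u, sl w b u ≤ sl w a u) : b ≤ a := by
  induction b using Nat.strong_induction_on generalizing a with
  | _ b ih =>
    rcases Nat.eq_zero_or_pos b with e | e
    · omega
    · have h0 := h 0
      simp only [sl_zero'] at h0
      have h1 := ih (b / 2 ^ w) (Nat.div_lt_self e (Nat.one_lt_two_pow hw.ne')) (a := a / 2 ^ w)
        fun u => by
          rw [← sl_succ, ← sl_succ]
          exact h _
      have := Nat.mul_le_mul_left (2 ^ w) h1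
      have := Nat.div_add_mod a (2 ^ w)
      have := Nat.div_add_mod b (2 ^ w)
      omega

theorem sl_sub (hw : 0 < w) (h : ∀ u, sl w b u ≤ sl w a u) (u : ℕ) :
    sl w (Nat.sub a b) u = sl w a u - sl w b u := by
  show sl w (a - b) u = _
  have key : ∀ a b : ℕ, (∀ u, sl w b u ≤ sl w a u) → a - b =
      a % 2 ^ w - b % 2 ^ w + 2 ^ w * (a / 2 ^ w - b / 2 ^ w) := fun a b h => by
    have h0 := h 0
    simp only [sl_zero'] at h0
    have h1 : b / 2 ^ w ≤ a / 2 ^ w := Nat.div_le_div_right (sl_le hw h)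
    have := Nat.mul_le_mul_left (2 ^ w) h1
    have := Nat.div_add_mod a (2 ^ w)
    have := Nat.div_add_mod b (2 ^ w)
    rw [Nat.mul_sub]
    omega
  have hl : ∀ a b : ℕ, a % 2 ^ w - b % 2 ^ w < 2 ^ w := fun a b =>
    (Nat.sub_le _ _).trans_lt (Nat.mod_lt _ (Nat.two_pow_pos w))
  induction u generalizing a b with
  | zero =>
    simp only [sl_zero']
    rw [key a b h, Nat.add_mul_mod_self_left, Nat.mod_eq_of_lt (hl a b)]
  | succ u ih =>
    rw [sl_succ, key a b h, Nat.add_mul_div_left _ _ (Nat.two_pow_pos w),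
      Nat.div_eq_of_lt (hl a b), zero_add, ih fun u => by
        rw [← sl_succ, ← sl_succ]
        exact h _, ← sl_succ, ← sl_succ]

theorem sl_mul (h : ∀ u, sl w a u * c < 2 ^ w) (u : ℕ) :
    sl w (Nat.mul a c) u = sl w a u * c := by
  show sl w (a * c) u = _
  have key : ∀ a : ℕ, a * c = a % 2 ^ w * c + 2 ^ w * (a / 2 ^ w * c) := fun a => by
    rw [← mul_assoc, ← add_mul, Nat.mod_add_div]
  induction u generalizing a with
  | zero =>
    have := h 0
    simp only [sl_zero'] at *
    rw [key a, Nat.add_mul_mod_self_left, Nat.mod_eq_of_lt this]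
  | succ u ih =>
    have := h 0
    simp only [sl_zero'] at this
    rw [sl_succ, key a, Nat.add_mul_div_left _ _ (Nat.two_pow_pos w), Nat.div_eq_of_lt this,
      zero_add, ih fun u => by
        rw [← sl_succ]
        exact h _, ← sl_succ]

theorem ones_succ (hw : 0 < w) (K : ℕ) : ones w (K + 1) = 1 + 2 ^ w * ones w K := by
  have h := fun K => Nat.geomSum_eq (m := 2 ^ w) (Nat.one_lt_two_pow hw.ne') K
  show (2 ^ (w * (K + 1)) - 1) / (2 ^ w - 1) = 1 + 2 ^ w * ((2 ^ (w * K) - 1) / (2 ^ w - 1))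
  rw [pow_mul, pow_mul, ← h, ← h, Finset.sum_range_succ', Finset.mul_sum, pow_zero, add_comm]
  simp only [pow_succ']

theorem sl_ones (hw : 0 < w) (K u : ℕ) : sl w (ones w K) u = if u < K then 1 else 0 := by
  have h1 : 1 < 2 ^ w := Nat.one_lt_two_pow hw.ne'
  induction K generalizing u with
  | zero => rw [show ones w 0 = 0 from Nat.zero_div _, sl_zero, if_neg (Nat.not_lt_zero u)]
  | succ K ih =>
    rw [ones_succ hw]
    cases u with
    | zero => simp [sl_zero', Nat.mod_eq_of_lt h1]
    | succ u =>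
      rw [sl_succ, Nat.add_mul_div_left _ _ (by omega), Nat.div_eq_of_lt h1, zero_add, ih]
      simp

/-- A digit repeated `K` times. -/
theorem sl_rep (hw : 0 < w) (hc : c < 2 ^ w) (K u : ℕ) :
    sl w (Nat.mul (ones w K) c) u = if u < K then c else 0 := by
  rw [sl_mul fun u => by rw [sl_ones hw]; split_ifs <;> omega, sl_ones hw]
  split_ifs <;> omega

theorem sl_small (ha : a < 2 ^ w) (u : ℕ) : sl w a u = if u = 0 then a else 0 := by
  cases u with
  | zero => simp [sl_zero', Nat.mod_eq_of_lt ha]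
  | succ u => simp [sl_succ, Nat.div_eq_of_lt ha]

theorem sl_shr (w a k u : ℕ) : sl w (Nat.shiftRight a (w * k)) u = sl w a (k + u) := by
  show sl w (a >>> (w * k)) u = _
  rw [sl, sl, ← Nat.shiftRight_add, mul_add]

/-- A shift inside the digits followed by a mask. -/
theorem sl_shr_and {s m : ℕ} (h : sl w m u < 2 ^ (w - s)) :
    sl w (Nat.land (Nat.shiftRight a s) m) u = sl w a u >>> s &&& sl w m u := by
  rw [sl_land]
  refine Nat.eq_of_testBit_eq fun r => ?_
  show (sl w (a >>> s) u &&& _).testBit r = _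
  by_cases hr : r < w - s
  · simp only [Nat.testBit_and, Nat.testBit_shiftRight]
    rw [tb_sl' (show r < w by omega), tb_sl' (show s + r < w by omega), Nat.testBit_shiftRight,
      add_left_comm]
  · simp [Nat.testBit_lt_two_pow (h.trans_le (Nat.pow_le_pow_right two_pos (not_lt.1 hr)))]

theorem sl_sl (w k a u v : ℕ) (hv : v < k) : sl w (sl (w * k) a u) v = sl w a (k * u + v) :=
  Nat.eq_of_testBit_eq fun r => by
    by_cases hr : r < w
    · have : w * v + w ≤ w * k := Nat.mul_le_mul_left w hv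
      rw [tb_sl' hr, tb_sl' hr, tb_sl' (by omega)]
      congr 1
      ring
    · simp [tb_sl, hr]

end Pool.Agent.Lib.MP_1f96ff_gt.Ck
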