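import Pool.Agent.Lib.MP_1f96ff_gt.Ck.T10
import Pool.Agent.Lib.MP_1f96ff_gt.Chk

namespace Pool.Agent.Lib.MP_1f96ff_gt.Ck

set_option maxRecDepth 100000

noncomputable def cov10t : Tb :=
  (.lf (nat_lit 0xa9002a000a70029800a50028800a40028c00a1000000000000000000000000008a0021400890022000830021c0086001c0006100000000000000000000000000a000264009f00278009d00270009b00268009800000000000000000000000000910025c009000258009500250009300248008d000000000000000000000000006000168005f00164005e00174005c0016c0032000000000000000000000000002100080001c0007c001700078001600074001500000000000000000000000000140004c00120003c000e00044000d00040000c000000000000000000000000000b000280005000240008000040007000180000))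

noncomputable def cov10 : ℕ → ℕ := tget cov10t 8

theorem cov10_ok_0 : allN (coverB 9 lst9 cov10 et10) 0 8 = true := by decide +kernel

theorem cov10_ok (j : ℕ) (h1 : 0 ≤ j) (h2 : j < 8) : coverB 9 lst9 cov10 et10 j = true := by
  exact allN_of cov10_ok_0 j h1 h2

theorem cover10 {K : ∀ n : ℕ, SimpleGraph (Fin n) → Prop} (hK : KI K) (h7 : ¬ K 7 ⊤)
    (hb : ∀ b, Excl K (bas b)) (hr : Rng 9 bas lst10 36 et10 0 170) :
    Cover K 9 lst9 8 lst10 36 :=
  cover_ok (by decide) (hr.holds (tget_mod et10t (by decide))
    ⟨hK, by decide, by decide, h7, hb, fun i => .inl (tget_mod lst10t (by decide) i)⟩) fun i hi => cov10_ok i (Nat.zero_le i) hi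

end Pool.Agent.Lib.MP_1f96ff_gt.Ck
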