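import Pool.Agent.Lib.MP_1f96ff_gt.Ck.T11
import Pool.Agent.Lib.MP_1f96ff_gt.Chk

namespace Pool.Agent.Lib.MP_1f96ff_gt.Ck

set_option maxRecDepth 100000

noncomputable def cov11t : Tb :=
  (.lf (nat_lit 0x2cf40b3c02cec0b3602ce80b3502ce40b3802cdc0b3400000000000000000000195406510195006500193c06530192c064a019480649000000000000000000000a8002a400a7c029d00a8c029c00a88029b00a840298000000000000000000000ab802a900ab402a800ab002a700aac02a600aa802a5000000000000000000000a20028d00a14028c00a2c028a00a10028900a080281000000000000000000001864061d01838061c0171c058d0186c042001868040e000000000000000000002c780b1902c740b1202c700b0f02c6c0acb02c680ac8000000000000000000002acc0ab002adc0ab602a9c0ab502ad00a8902a140a84000000000000000000000f5803d300f5403c000e8403d400e44038a00df00378000000000000000000002d440b5002d3c0b4b02d380b4a02d340b4902d300b48000000000000000000002ccc0b2d02cc80b2c02cc40b2a02cc00b2f02cb80b2900000000000000000000071c01c00071801c50071001c30070801bb0070401b00000000000000000000008ec0232008c4023f008f8022c008f4023c0082c01c800000000000000000000192006400191c06460191406440190c064201904063f00000000000000000000197c065e01964065d019700658019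6c065a0195c06560000000000000000000018b40634018cc062c018c80631018c0062f018b80628000000000000000000000a5c029300a48029600a44029000a54028f00a50028e000000000000000000002ca00b2702c980b2502c900b2302c880b2102c800b1f000000000000000000000a00027f009f80279009f40272009f0027b009e802490000000000000000000019900669019a006670198c0662019980665019840660000000000000000000002a0c0a7c02a080a8102a000a6c029fc0a7e029f4099e000000000000000000000ddc037600dd4037100dd0037000dcc036f00dc8036e0000000000000000000006bc01aa006b801a8006b40192006b00191006ac019000000000000000000000252009470250c093e02518093d02514093c02510093b000000000000000000000ad002b300ae002b700ad802b200ac402b500ac002af000000000000000000000db4036c00dac036a00d9c036600d94036400d8c036200000000000000000000063c018a005ec018e00634018c005a001550062c01520000000000000000000018ec063a018f80639018e0063d018dc063c018d80635000000000000000000002afc0abc02aec0ac302ae80ac202b040ac002ae40ab80000000000000000000024e80937023e408c0024e407f801de4093801ca806cd000000000000000000000d84035a00d80035600d7c035e00d74035c00d6c0331000000000000000000000544014c0054001180053c00fb0053800b2005340033000000000000000000001b3006c901a8406cb01a2c0673019c8066b01b28066a000000000000000000000b5802d500b5002cd00b3002cb00b2802bb00ae802b90000000000000000000000c8002b000c40030000bc000b000b8002d000b00000000000000000000000002d1c0b4202d180b4102d140b4402d0c0b4002cfc0b3e))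

noncomputable def cov11 : ℕ → ℕ := tget cov11t 36

theorem cov11_ok_0 : allN (coverB 10 lst10 cov11 et11) 0 36 = true := by decide +kernel

theorem cov11_ok (j : ℕ) (h1 : 0 ≤ j) (h2 : j < 36) : coverB 10 lst10 cov11 et11 j = true := by
  exact allN_of cov11_ok_0 j h1 h2

theorem cover11 {K : ∀ n : ℕ, SimpleGraph (Fin n) → Prop} (hK : KI K) (h7 : ¬ K 7 ⊤)
    (hb : ∀ b, Excl K (bas b)) (hr : Rng 10 bas lst11 434 et11 0 2898) :
    Cover K 10 lst10 36 lst11 434 :=
  cover_ok (by decide) (hr.holds (tget_mod et11t (by decide))
    ⟨hK, by decide, by decide, h7, hb, fun i => .inl (tget_mod lst11t (by decide) i)⟩) fun i hi => cov11_ok i (Nat.zero_le i) hi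

end Pool.Agent.Lib.MP_1f96ff_gt.Ck
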