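import Pool.Agent.Lib.MP_1f96ff_gt.Ck.T8
import Pool.Agent.Lib.MP_1f96ff_gt.Chk

namespace Pool.Agent.Lib.MP_1f96ff_gt.Ck

set_option maxRecDepth 100000

def lst7 : ℕ → ℕ := fun _ => 65536

noncomputable def cov8t : Tb :=
  (.lf (nat_lit 0x60001400040000c0001000080000))

noncomputable def cov8 : ℕ → ℕ := tget cov8t 1

theorem cov8_ok_0 : allN (coverB 7 lst7 cov8 et8) 0 1 = true := by decide +kernel

theorem cov8_ok (j : ℕ) (h1 : 0 ≤ j) (h2 : j < 1) : coverB 7 lst7 cov8 et8 j = true := by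
  exact allN_of cov8_ok_0 j h1 h2

theorem cover8 {K : ∀ n : ℕ, SimpleGraph (Fin n) → Prop} (hK : KI K) (h7 : ¬ K 7 ⊤)
    (hb : ∀ b, Excl K (bas b)) (hr : Rng 7 bas lst8 2 et8 0 7) :
    Cover K 7 lst7 1 lst8 2 :=
  cover_ok (by decide) (hr.holds (tget_mod et8t (by decide))
    ⟨hK, by decide, by decide, h7, hb, fun i => .inl (tget_mod lst8t (by decide) i)⟩) fun i hi => cov8_ok i (Nat.zero_le i) hi

end Pool.Agent.Lib.MP_1f96ff_gt.Ck
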