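import Pool.Agent.Lib.MP_1f96ff_gt.Ck.T9
import Pool.Agent.Lib.MP_1f96ff_gt.Chk

namespace Pool.Agent.Lib.MP_1f96ff_gt.Ck

set_option maxRecDepth 100000

noncomputable def cov9t : Tb :=
  (.lf (nat_lit 0x3c000900038000d00030000b00028000800000000000000000000000000000001c00060001400020001000010000c0000))

noncomputable def cov9 : ℕ → ℕ := tget cov9t 2

theorem cov9_ok_0 : allN (coverB 8 lst8 cov9 et9) 0 2 = true := by decide +kernel

theorem cov9_ok (j : ℕ) (h1 : 0 ≤ j) (h2 : j < 2) : coverB 8 lst8 cov9 et9 j = true := by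
  exact allN_of cov9_ok_0 j h1 h2

theorem cover9 {K : ∀ n : ℕ, SimpleGraph (Fin n) → Prop} (hK : KI K) (h7 : ¬ K 7 ⊤)
    (hb : ∀ b, Excl K (bas b)) (hr : Rng 8 bas lst9 8 et9 0 16) :
    Cover K 8 lst8 2 lst9 8 :=
  cover_ok (by decide) (hr.holds (tget_mod et9t (by decide))
    ⟨hK, by decide, by decide, h7, hb, fun i => .inl (tget_mod lst9t (by decide) i)⟩) fun i hi => cov9_ok i (Nat.zero_le i) hi

end Pool.Agent.Lib.MP_1f96ff_gt.Ck
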