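import Pool.Agent.Lib.MP_1f96ff_gt.Ck.BJ
import Pool.Agent.Lib.MP_1f96ff_gt.Ck.V8
import Pool.Agent.Lib.MP_1f96ff_gt.Ck.V9
import Pool.Agent.Lib.MP_1f96ff_gt.Ck.V10
import Pool.Agent.Lib.MP_1f96ff_gt.Ck.V11
import Pool.Agent.Lib.MP_1f96ff_gt.Ck.V12
import Pool.Agent.Lib.MP_1f96ff_gt.Ck.V13

/-! The checked ranges of all levels exclude a good colouring of the complete graph on 13
vertices. -/

namespace Pool.Agent.Lib.MP_1f96ff_gt.Ck

theorem all {K : ∀ n : ℕ, SimpleGraph (Fin n) → Prop} (hK : KI K) (l : List ℕ)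
    (hl : allN (fun j => l.contains (bas j)) 0 21 = true) (h0 : ∀ e ∈ l, Excl K e)
    (r8 : Rng 7 bas lst8 2 et8 0 7) (r9 : Rng 8 bas lst9 8 et9 0 16)
    (r10 : Rng 9 bas lst10 36 et10 0 170) (r11 : Rng 10 bas lst11 434 et11 0 2898)
    (r12 : Rng 11 bas lst12 1504 et12 0 34159) (r13 : Rng 12 bas lst13 0 et13 0 27466)
    (G : SimpleGraph (Fin 13)) (hG : K 13 G) (hG' : K 13 Gᶜ) : False := by
  have hb := bas_excl hK fun j hj =>
    h0 _ (List.mem_of_elem_eq_true (allN_of hl j (Nat.zero_le j) (by omega)))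
  have h7 := (hb 0).top hK (by decide +kernel)
  exact no_good hK h7 rfl (cover8 hK h7 hb r8) (cover9 hK h7 hb r9) (cover10 hK h7 hb r10)
    (cover11 hK h7 hb r11) (cover12 hK h7 hb r12) (cover13 hK h7 hb r13) G hG hG'

end Pool.Agent.Lib.MP_1f96ff_gt.Ck
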