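import Pool.Agent.Lib.MP_1f96ff_gt.Ck.A

/-!
Unit propagation on a block of clauses packed in one number. A position `p` is a literal, `T p`
says that it holds; `p + V` is the opposite literal. A state is the set of the literals not yet
known to hold.
-/

namespace Pool.Agent.Lib.MP_1f96ff_gt.Ck

/-- An assignment of the literals. -/
structure Asg (V : ℕ) where
  T : ℕ → Prop
  per : ∀ p, T (p + V * 2) ↔ T p
  opp : ∀ p, ¬T p → T (p + V)

variable {V : ℕ} (A : Asg V)

theorem Asg.per' (k p : ℕ) : A.T (V * 2 * k + p) ↔ A.T p := by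
  induction k with
  | zero => simp
  | succ k ih => rw [← ih, ← A.per (V * 2 * k + p), Nat.mul_succ, add_right_comm]

/-- The literals outside the state hold. -/
structure Asg.Cons (s : ℕ) : Prop where
  tr : ∀ p < V * 2, s.testBit p = false → A.T p
  g0 : sl V s 0 < 2 ^ (V - 1)
  g1 : sl V s 1 < 2 ^ (V - 1)
  lt : s < 2 ^ (V * 2)

/-- Each of the first `k` digits contains a literal that fails. -/
def Asg.Val (N k : ℕ) : Prop := ∀ u < k, ∃ r < V, N.testBit (V * u + r) = true ∧ ¬A.T (V * u + r)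

/-- All literals of the number hold. -/
def Asg.Tr (x : ℕ) : Prop := ∀ p, x.testBit p = true → A.T p

theorem Asg.Tr.fold {A : Asg V} {x : ℕ} (h : A.Tr x) {s : ℕ} (k : ℕ) (hs : s = V * 2 * k) :
    A.Tr (Nat.lor x (Nat.shiftRight x s)) := fun p hp => by
  have hp' : (x ||| x >>> s).testBit p = true := hp
  rw [Nat.testBit_or, Nat.testBit_shiftRight, Bool.or_eq_true] at hp'
  rcases hp' with e | e
  exacts [h p e, (A.per' k p).1 (hs ▸ h _ e)]

/-- Remove the literals of `x` from the state. -/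
def upd (s x : ℕ) : ℕ := Nat.xor s (Nat.land s x)

theorem tb_upd (s x p : ℕ) : (upd s x).testBit p = (s.testBit p && !x.testBit p) := by
  show (s ^^^ (s &&& x)).testBit p = _
  rw [Nat.testBit_xor, Nat.testBit_and]
  cases s.testBit p <;> cases x.testBit p <;> rfl

theorem upd_le (s x : ℕ) : upd s x ≤ s := Nat.le_of_testBit fun p hp => by
  rw [tb_upd, Bool.and_eq_true] at hp
  exact hp.1

theorem sl_upd (w s x u : ℕ) : sl w (upd s x) u = upd (sl w s u) (sl w x u) := by
  rw [upd, sl_xor, sl_land]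
  rfl

theorem Asg.Cons.upd {A : Asg V} {s x : ℕ} (h : A.Cons s) (hx : A.Tr x) : A.Cons (upd s x) where
  tr p hp e := by
    rw [tb_upd] at e
    cases e1 : s.testBit p with
    | false => exact h.tr p hp e1
    | true => exact hx p (by simpa [e1] using e)
  g0 := by rw [sl_upd]; exact (upd_le _ _).trans_lt h.g0
  g1 := by rw [sl_upd]; exact (upd_le _ _).trans_lt h.g1
  lt := (upd_le _ _).trans_lt h.lt

theorem or_top {x k : ℕ} (h : x < 2 ^ k) : x ||| 2 ^ k = 2 ^ k + x := by
  rw [Nat.or_comm, ← mul_one (2 ^ k), Nat.two_pow_add_eq_or_of_lt h]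

theorem top_and {x k : ℕ} (h : x < 2 ^ k) : (2 ^ k + x) &&& 2 ^ k = 2 ^ k := by
  rw [Nat.and_two_pow, Nat.testBit_two_pow_add_eq, Nat.testBit_lt_two_pow h]
  simp

/-- The guard bit survives the subtraction of one from a nonzero digit. -/
theorem guard_pos {x k : ℕ} (h : x < 2 ^ k) (h0 : x ≠ 0) :
    ((x ||| 2 ^ k) - 1) &&& 2 ^ k = 2 ^ k := by
  rw [or_top h, show 2 ^ k + x - 1 = 2 ^ k + (x - 1) by omega, top_and (by omega)]

theorem unit_bit {x k r r' : ℕ} (h : x < 2 ^ k) (h1 : x &&& ((x ||| 2 ^ k) - 1) = 0)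
    (hr : x.testBit r = true) (hr' : x.testBit r' = true) : r = r' := by
  have h0 : x ≠ 0 := fun e => by simp [e] at hr
  have e : x &&& (x - 1) = 0 := by
    have := congrArg (· % 2 ^ k) h1
    rwa [Nat.and_mod_two_pow, or_top h, show 2 ^ k + x - 1 = 2 ^ k + (x - 1) by omega,
      Nat.add_mod_left, Nat.mod_eq_of_lt h, Nat.mod_eq_of_lt (by omega), Nat.zero_mod] at this
  obtain ⟨j, rfl⟩ := (Nat.and_sub_one_eq_zero_iff_isPowerOfTwo h0).1 e
  rw [Nat.testBit_two_pow] at hr hr'
  rw [← of_decide_eq_true hr, of_decide_eq_true hr']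

/-- Subtract one from all digits after setting the guard bits. -/
def dec1 (X O G : ℕ) : ℕ := Nat.sub (Nat.lor X G) O

/-- The digits whose guard bit is missing in `E` are filled with ones. -/
def zmask (V1 G E : ℕ) : ℕ :=
  (fun U => Nat.sub U (Nat.shiftRight U V1)) (Nat.xor G (Nat.land G E))

/-- One round: `kf` if a clause has all its literals, else `kc` of the new state. -/
def rnd {α : Type} (V V1 : ℕ) (fd : ℕ → ℕ) (N OW O G s : ℕ) (kf : α) (kc : ℕ → α) : α :=
  (fun X => (fun D => Bool.rec (motive := fun _ => α) kf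
    (kc (upd s (fd (Nat.shiftLeft (Nat.land X (zmask V1 G (dec1 (Nat.land X D) O G))) V))))
    (Nat.beq (Nat.land D G) G)) (dec1 X O G)) (Nat.land N (Nat.mul OW s))

section

variable {k O G : ℕ} (hV : 0 < V) (hO : ∀ u, sl V O u = if u < k then 1 else 0)
  (hG : ∀ u, sl V G u = if u < k then 2 ^ (V - 1) else 0)
include hV hO hG

theorem sl_dec1 (X u : ℕ) (hu : u < k) : sl V (dec1 X O G) u = (sl V X u ||| 2 ^ (V - 1)) - 1 := by
  rw [dec1, sl_sub hV fun u => ?_, sl_lor, hO, hG, if_pos hu, if_pos hu]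
  rw [sl_lor, hO, hG]
  split_ifs
  · exact (Nat.two_pow_pos _).trans_le Nat.right_le_or
  · exact Nat.zero_le _

omit hO in
theorem sl_zmask (E u : ℕ) (h : sl V (zmask (V - 1) G E) u ≠ 0) :
    u < k ∧ sl V E u &&& 2 ^ (V - 1) ≠ 2 ^ (V - 1) := by
  set U := Nat.xor G (Nat.land G E) with hU
  have h1 : ∀ u, sl V U u = 0 ∨ sl V U u = 2 ^ (V - 1) := fun u => by
    rw [hU, sl_xor, sl_land, hG]
    split_ifs
    · rw [Nat.two_pow_and]
      cases (sl V E u).testBit (V - 1) <;> simp
    · simp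
  have h2 : ∀ u, sl V (Nat.shiftRight U (V - 1)) u ≤ sl V U u := fun u => by
    have : sl V (Nat.shiftRight U (V - 1)) u = sl V U u >>> (V - 1) :=
      Nat.eq_of_testBit_eq fun r => by
        show (sl V (U >>> (V - 1)) u).testBit r = _
        rw [tb_sl, Nat.testBit_shiftRight, Nat.testBit_shiftRight, tb_sl]
        rcases Nat.eq_zero_or_pos r with rfl | hr
        · simp [hV, add_comm]
        · rw [decide_eq_false (show ¬V - 1 + r < V by omega), Bool.false_and, Bool.and_eq_false_imp]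
          intro hr'
          have hr' := of_decide_eq_true hr'
          rw [show V - 1 + (V * u + r) = V * (u + 1) + (r - 1) by rw [Nat.mul_succ]; omega,
            ← tb_sl' (by omega)]
          rcases h1 (u + 1) with e | e <;> rw [e]
          · simp
          · rw [Nat.testBit_two_pow]
            exact decide_eq_false (by omega)
    rw [this]
    exact Nat.shiftRight_le _ _
  have h3 : sl V U u ≠ 0 := fun e => h (by
    show sl V (Nat.sub U _) u = 0
    rw [sl_sub hV h2, e, Nat.zero_sub])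
  rw [hU, sl_xor, sl_land, hG] at h3
  split_ifs at h3 with hu
  · exact ⟨hu, fun e => h3 (by rw [Nat.and_comm, e, Nat.xor_self])⟩
  · simp at h3

end

theorem sl_bcast (hV : 0 < V) {s : ℕ} (hs : s < 2 ^ (V * 2)) (K u : ℕ) :
    sl V (Nat.mul (ones (V * 2) K) s) u = if u < 2 * K then sl V s (u % 2) else 0 := by
  conv_lhs => rw [← Nat.div_add_mod u 2, ← sl_sl V 2 _ _ _ (Nat.mod_lt u two_pos),
    sl_rep (by omega) hs]
  by_cases h : u < 2 * K
  · rw [if_pos h, if_pos (by omega)]
  · rw [if_neg h, if_neg (by omega), sl_zero]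

theorem rnd_ok {α : Type} {A : Asg V} (hV : 0 < V) {fd : ℕ → ℕ} (hfd : ∀ x, A.Tr x → A.Tr (fd x))
    {N K O G s : ℕ} (hO : ∀ u, sl V O u = if u < 2 * K then 1 else 0)
    (hG : ∀ u, sl V G u = if u < 2 * K then 2 ^ (V - 1) else 0) (hN : A.Val N (2 * K))
    (hs : A.Cons s) (kf : α) (kc : ℕ → α) :
    ∃ s', A.Cons s' ∧ rnd V (V - 1) fd N (ones (V * 2) K) O G s kf kc = kc s' := by
  set X := Nat.land N (Nat.mul (ones (V * 2) K) s) with hX
  have x1 : ∀ u, sl V X u < 2 ^ (V - 1) := fun u => by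
    rw [hX, sl_land, sl_bcast hV hs.lt]
    refine Nat.and_lt_two_pow _ ?_
    split_ifs
    · rcases Nat.mod_two_eq_zero_or_one u with e | e <;> rw [e]
      exacts [hs.g0, hs.g1]
    · exact Nat.two_pow_pos _
  have x2 : ∀ u < 2 * K, ∃ r < V, (sl V X u).testBit r = true ∧ ¬A.T (V * u + r) := fun u hu => by
    obtain ⟨r, hr, h1, h2⟩ := hN u hu
    refine ⟨r, hr, ?_, h2⟩
    rw [hX, sl_land, sl_bcast hV hs.lt, if_pos hu, Nat.testBit_and, tb_sl' hr, h1, tb_sl' hr,
      Bool.true_and]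
    by_contra e
    have hm : V * (u % 2) ≤ V * 1 := Nat.mul_le_mul_left V (by omega)
    refine h2 ?_
    rw [← Nat.div_add_mod u 2, mul_add, ← mul_assoc, add_assoc, A.per']
    exact hs.tr _ (by omega) (by simpa using e)
  have e : Nat.land (dec1 X O G) G = G := sl_ext hV fun u => by
    rw [sl_land, hG]
    split_ifs with hu
    · obtain ⟨r, -, h1, -⟩ := x2 u hu
      rw [sl_dec1 hV hO hG _ _ hu, guard_pos (x1 u) fun e => by simp [e] at h1]
    · simp
  refine ⟨_, hs.upd (hfd (Nat.shiftLeft (Nat.land X (zmask (V - 1) G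
    (dec1 (Nat.land X (dec1 X O G)) O G))) V) fun p hp => ?_), ?_⟩
  · have hp' : (Nat.land X _ <<< V).testBit p = true := hp
    rw [Nat.testBit_shiftLeft, Bool.and_eq_true] at hp'
    obtain ⟨h1, h2⟩ := hp'
    obtain ⟨q, rfl⟩ := Nat.exists_eq_add_of_le' (of_decide_eq_true h1)
    have hr := Nat.mod_lt q hV
    rw [Nat.add_sub_cancel, ← Nat.div_add_mod q V, ← tb_sl' hr, sl_land, Nat.testBit_and,
      Bool.and_eq_true] at h2
    obtain ⟨hu, h3⟩ := sl_zmask hV hG (dec1 (Nat.land X (dec1 X O G)) O G) (q / V) fun e => by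
      rw [e] at h2
      simp at h2
    rw [sl_dec1 hV hO hG _ _ hu, sl_land, sl_dec1 hV hO hG _ _ hu] at h3
    obtain ⟨r, -, h4, h5⟩ := x2 _ hu
    have := unit_bit (x1 _) (by_contra fun e => h3 (guard_pos
      (Nat.and_le_left.trans_lt (x1 _)) e)) h4 h2.1
    rw [this, Nat.div_add_mod] at h5
    exact A.opp _ h5
  · show Bool.rec (motive := fun _ => α) kf _ (Nat.beq (Nat.land (dec1 X O G) G) G) = _
    rw [e, Nat.beq_refl]

end Pool.Agent.Lib.MP_1f96ff_gt.Ck
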