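import Pool.Agent.Lib.MP_1f96ff_gt.Ck.B

/-!
Many `n × n` bit matrices (rows of 16 bits) in one number; each is permuted by its own
permutation matrix.
-/

namespace Pool.Agent.Lib.MP_1f96ff_gt.Ck

/-- The entry `(i, j)` of the matrix number `f`. -/
def bt (n N f i j : ℕ) : Prop := N.testBit (16 * (n * f + i) + j) = true

/-- The union of `f k`, `k < n`. -/
def orl (f : ℕ → ℕ) (n : ℕ) : ℕ :=
  Nat.rec (motive := fun _ => ℕ) 0 (fun k ih => Nat.lor ih (f k)) n

theorem tb_orl (f : ℕ → ℕ) (n p : ℕ) :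
    (orl f n).testBit p = true ↔ ∃ k < n, (f k).testBit p = true := by
  induction n with
  | zero => simp [orl]
  | succ n ih =>
    show (orl f n ||| f n).testBit p = true ↔ _
    rw [Nat.testBit_or, Bool.or_eq_true, ih, Nat.exists_lt_succ_right]

/-- The constants for `m` matrices of size `n`. -/
structure Cst where
  r0 : ℕ
  rp : ℕ
  c0 : ℕ
  dg : ℕ
  lw : ℕ
  g : ℕ
  fr : ℕ

def mkCst (n m : ℕ) : Cst :=
  ⟨Nat.mul (ones (Nat.mul 16 n) m) 65535, ones 16 n, ones 16 (Nat.mul n m),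
    Nat.mul (ones (Nat.mul 16 n) m) (ones 17 n), Nat.mul (ones 16 (Nat.mul n m)) 32767,
    Nat.mul (ones 16 (Nat.mul n m)) 32768,
    Nat.mul (ones (Nat.mul 16 n) m) (Nat.pred (Nat.pow 2 n))⟩

/-- Row `k` of each matrix. -/
def rowx (c : Cst) (x k : ℕ) : ℕ := Nat.land (Nat.shiftRight x (Nat.mul 16 k)) c.r0

/-- Row `k` is copied to all rows. -/
def rowrep (c : Cst) (x k : ℕ) : ℕ := Nat.mul (rowx c x k) c.rp

/-- Column `k` is copied to all columns. -/
def colrep (c : Cst) (x k : ℕ) : ℕ := Nat.mul (Nat.land (Nat.shiftRight x k) c.c0) 65535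

/-- The product `Pᵀ A P` of each pair of matrices. -/
def papp (n : ℕ) (c : Cst) (P A : ℕ) : ℕ :=
  (fun A' => orl (fun k => Nat.land (rowrep c A' k)
    (colrep c (Nat.add (Nat.land (rowrep c P k) c.dg) c.lw) 15)) n)
    (orl (fun k => Nat.land (colrep c A k) (rowrep c P k)) n)

/-- All matrices are permutation matrices. -/
def pchk (n : ℕ) (c : Cst) (P : ℕ) : Bool :=
  Bool.rec (motive := fun _ => Bool) false (Nat.beq (Nat.land P (dec1 P c.c0 c.g)) 0)
    (Nat.beq (orl (rowx c P) n) c.fr)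

variable {n m x f i j k : ℕ}

theorem bt_iff (hj : j < 16) : bt n x f i j ↔ (sl 16 x (n * f + i)).testBit j = true := by
  rw [bt, tb_sl' hj]

theorem bt_iff' (hi : i < n) (hj : j < 16) :
    bt n x f i j ↔ (sl 16 (sl (16 * n) x f) i).testBit j = true := by
  rw [bt_iff hj, sl_sl _ _ _ _ _ hi]

theorem idx_lt (hf : f < m) (hi : i < n) : n * f + i < n * m := by
  have : n * f + n ≤ n * m := Nat.mul_le_mul_left n hf
  omega

theorem sl_rowx (hk : k < n) (f : ℕ) :
    sl (16 * n) (rowx (mkCst n m) x k) f = if f < m then sl 16 x (n * f + k) else 0 := by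
  have h1 : 65535 < 2 ^ (16 * n) :=
    (show 65535 < 2 ^ 16 by norm_num).trans_le (Nat.pow_le_pow_right two_pos (by omega))
  rw [rowx, sl_land]
  show _ &&& sl (16 * n) (Nat.mul (ones (16 * n) m) 65535) f = _
  rw [sl_rep (by omega) h1]
  split_ifs
  · rw [show 65535 = 2 ^ 16 - 1 by norm_num, Nat.and_two_pow_sub_one_eq_mod, ← sl_zero',
      sl_sl _ _ _ _ _ (by omega)]
    exact (sl_shr 16 x k _).trans (by rw [add_zero, add_comm])
  · simp

theorem ones_mul_lt {w c : ℕ} (hw : 0 < w) (hc : c < 2 ^ w) (n : ℕ) :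
    c * ones w n < 2 ^ (w * n) :=
  Nat.lt_pow_two_of_testBit _ fun p hp => by
    rw [← Nat.div_add_mod p w, ← tb_sl' (Nat.mod_lt p hw), mul_comm c]
    show (sl w (Nat.mul _ c) _).testBit _ = _
    rw [sl_rep hw hc, if_neg (not_lt.2 ((Nat.le_div_iff_mul_le hw).2 (by rwa [mul_comm])))]
    simp

theorem bt_rowrep (hf : f < m) (hi : i < n) (hj : j < 16) (hk : k < n) (h : bt n x f k j) :
    bt n (rowrep (mkCst n m) x k) f i j := by
  have h1 : ∀ f, sl (16 * n) (rowx (mkCst n m) x k) f < 2 ^ 16 := fun f => by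
    rw [sl_rowx hk]
    split_ifs
    exacts [sl_lt _ _ _, by norm_num]
  rw [bt_iff' hi hj, rowrep, sl_mul (c := (mkCst n m).rp) fun f =>
    ones_mul_lt (by norm_num) (h1 f) n, mul_comm]
  show (sl 16 (Nat.mul (ones 16 n) _) i).testBit j = true
  rw [sl_rep (by norm_num) (h1 f), if_pos hi, sl_rowx hk, if_pos hf]
  exact (bt_iff hj).1 h

theorem bt_colrep (hf : f < m) (hi : i < n) (hj : j < 16) (hk : k < 16) (h : bt n x f i k) :
    bt n (colrep (mkCst n m) x k) f i j := by
  have h1 : ∀ u, sl 16 (Nat.land (Nat.shiftRight x k) (ones 16 (n * m))) u =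
      sl 16 x u >>> k &&& if u < n * m then 1 else 0 := fun u => by
    rw [sl_shr_and, sl_ones (by norm_num)]
    rw [sl_ones (by norm_num)]
    have := Nat.one_lt_two_pow (show 16 - k ≠ 0 by omega)
    split_ifs <;> omega
  rw [bt_iff hj]
  show (sl 16 (Nat.mul (Nat.land (Nat.shiftRight x k) (ones 16 (n * m))) 65535) _).testBit j = true
  rw [sl_mul fun u => ?_, h1, if_pos (idx_lt hf hi), Nat.and_one_is_mod,
    Nat.shiftRight_eq_div_pow]
  · rw [bt_iff hk, Nat.testBit_eq_decide_div_mod_eq] at h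
    rw [of_decide_eq_true h, one_mul, show 65535 = 2 ^ 16 - 1 by norm_num,
      Nat.testBit_two_pow_sub_one]
    simpa using hj
  · have : sl 16 x u >>> k &&& (if u < n * m then 1 else 0) ≤ 1 :=
      Nat.and_le_right.trans (by split_ifs <;> omega)
    rw [h1]
    omega

theorem diag_ok : ∀ n ≤ 15, ones 17 n < 2 ^ (16 * n) ∧ ∀ i < n, sl 16 (ones 17 n) i = 2 ^ i := by
  decide +kernel

theorem bt_diag (hn : n ≤ 15) (hf : f < m) (hi : i < n) (h : bt n x f i i) :
    bt n (Nat.add (Nat.land x (mkCst n m).dg) (mkCst n m).lw) f i 15 := by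
  have h1 : ∀ f, ∀ i < n, sl 16 (mkCst n m).dg (n * f + i) = if f < m then 2 ^ i else 0 :=
    fun f i hi => by
      rw [← sl_sl _ _ _ _ _ hi]
      show sl 16 (sl (16 * n) (Nat.mul (ones (16 * n) m) (ones 17 n)) f) i = _
      rw [sl_rep (by omega) (diag_ok n hn).1]
      split_ifs
      exacts [(diag_ok n hn).2 i hi, sl_zero _ _]
  have h2 : ∀ u, sl 16 (mkCst n m).lw u = if u < n * m then 32767 else 0 := fun u =>
    sl_rep (by norm_num) (by norm_num) _ _
  have hp : ∀ i < n, 2 ^ i ≤ 2 ^ 14 := fun i hi => Nat.pow_le_pow_right two_pos (by omega)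
  rw [bt_iff (by omega)] at h ⊢
  rw [sl_add fun u => ?_, sl_land, h1 f i hi, h2, if_pos hf, if_pos (idx_lt hf hi),
    Nat.and_two_pow, h, Nat.testBit_eq_decide_div_mod_eq]
  · have := hp i hi
    have := Nat.two_pow_pos i
    simp only [Bool.toNat_true, decide_eq_true_eq]
    omega
  · have hr := Nat.mod_lt u (show 0 < n by omega)
    have h3 : sl 16 x u &&& sl 16 (mkCst n m).dg u ≤ 2 ^ 14 := Nat.and_le_right.trans (by
      rw [← Nat.div_add_mod u n, h1 _ _ hr]
      split_ifs
      exacts [hp _ hr, by norm_num])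
    rw [sl_land, h2]
    split_ifs <;> omega

theorem bt_land {a b : ℕ} : bt n (Nat.land a b) f i j ↔ bt n a f i j ∧ bt n b f i j := by
  show (a &&& b).testBit _ = true ↔ _
  rw [Nat.testBit_and, Bool.and_eq_true]
  rfl

theorem papp_ok {P A a b : ℕ} (hn : n ≤ 15) (hf : f < m) (hi : i < n) (hj : j < n) (ha : a < n)
    (hb : b < n) (h1 : bt n P f i a) (h2 : bt n P f j b) (h : bt n A f i j) :
    bt n (papp n (mkCst n m) P A) f a b :=
  (tb_orl _ _ _).2 ⟨i, hi, bt_land.2 ⟨bt_rowrep hf ha (by omega) hi ((tb_orl _ _ _).2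
    ⟨j, hj, bt_land.2 ⟨bt_colrep hf hi (by omega) (by omega) h,
      bt_rowrep hf hi (by omega) hj h2⟩⟩),
    bt_colrep hf ha (by omega) (by omega) (bt_diag hn hf ha (bt_rowrep hf ha (by omega) hi h1))⟩⟩

theorem pchk_ok {P : ℕ} (hn : n ≤ 15) (h : pchk n (mkCst n m) P = true) (hf : f < m) :
    ∃ π : Equiv.Perm (Fin n), (∀ k : Fin n, bt n P f k (π k)) ∧
      ∀ k : Fin n, bt n P f k k → π k = k := by
  rw [pchk] at h
  cases e : Nat.beq (orl (rowx (mkCst n m) P) n) (mkCst n m).fr with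
  | false => rw [e] at h; cases h
  | true =>
    rw [e] at h
    have e1 := Nat.eq_of_beq_eq_true e
    have e2 : Nat.land P (dec1 P (mkCst n m).c0 (mkCst n m).g) = 0 := Nat.eq_of_beq_eq_true h
    rcases Nat.eq_zero_or_pos n with rfl | h0
    · exact ⟨1, fun k => k.elim0, fun k => k.elim0⟩
    have hp : 2 ^ n ≤ 2 ^ (16 * n) := Nat.pow_le_pow_right two_pos (by omega)
    have := Nat.two_pow_pos n
    have h1 : ∀ j < 16, (∃ k < n, bt n P f k j) ↔ j < n := fun j hj => by
      have := tb_orl (rowx (mkCst n m) P) n (16 * n * f + j)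
      rw [e1, ← tb_sl' (by omega)] at this
      have h2 : sl (16 * n) (mkCst n m).fr f = 2 ^ n - 1 :=
        (sl_rep (c := 2 ^ n - 1) (by omega) (by omega) m f).trans (if_pos hf)
      rw [h2, Nat.testBit_two_pow_sub_one, decide_eq_true_eq] at this
      rw [this]
      refine exists_congr fun k => and_congr_right fun hk => ?_
      rw [← tb_sl' (w := 16 * n) (by omega), sl_rowx hk, if_pos hf, bt_iff hj]
    have h3 : ∀ k < n, ∀ a < n, ∀ b < n, bt n P f k a → bt n P f k b → a = b :=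
      fun k hk a ha b hb h4 h5 => by
        have h6 := congrArg (sl 16 · (n * f + k)) e2
        simp only [sl_zero] at h6
        rw [sl_land, sl_dec1 (k := n * m) (O := (mkCst n m).c0) (G := (mkCst n m).g) (by norm_num)
          (sl_ones (by norm_num) _) (sl_rep (c := 32768) (by norm_num) (by norm_num) _) _ _
          (idx_lt hf hk)] at h6
        refine unit_bit (Nat.lt_pow_two_of_testBit _ fun p hp => ?_) h6
          ((bt_iff (by omega)).1 h4) ((bt_iff (by omega)).1 h5)
        by_contra h7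
        by_cases h8 : p < 16
        · have := (h1 p h8).1 ⟨k, hk, (bt_iff h8).2 (by simpa using h7)⟩
          omega
        · simp [tb_sl, h8] at h7
    choose σ h4 h5 using fun j : Fin n => (h1 j (by omega)).2 j.2
    have hinj : Function.Injective fun j : Fin n => (⟨σ j, h4 j⟩ : Fin n) := fun a b hab =>
      Fin.ext (h3 _ (h4 a) _ a.2 _ b.2 (h5 a) (by
        rw [show σ a = σ b from congrArg Fin.val hab]
        exact h5 b))
    suffices h : ∃ π : Equiv.Perm (Fin n), ∀ k : Fin n, bt n P f k (π k) from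
      h.imp fun π h => ⟨h, fun k e => Fin.ext (h3 k k.2 _ (π k).2 _ k.2 (h k) e)⟩
    refine ⟨(Equiv.ofBijective _ (Finite.injective_iff_bijective.1 hinj)).symm, fun k => ?_⟩
    have := h5 ((Equiv.ofBijective _ (Finite.injective_iff_bijective.1 hinj)).symm k)
    rwa [show σ _ = k from congrArg Fin.val
      ((Equiv.ofBijective _ (Finite.injective_iff_bijective.1 hinj)).apply_symm_apply k)] at this

end Pool.Agent.Lib.MP_1f96ff_gt.Ck
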