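import Pool.Agent.Lib.MP_1f96ff_gt.Ck.T8

namespace Pool.Agent.Lib.MP_1f96ff_gt.Ck

set_option maxRecDepth 100000

set_option maxHeartbeats 0 in
theorem rng8_0 : Rng 7 bas lst8 2 et8 0 7 := by
  exact chks_ok (
  ⟨nat_lit 0x9800121307,
  nat_lit 0xff73ff75ff7574730300,
  nat_lit 0x10000400010000400010000400030000c00030000c00030000400010000c00030000c0003000040001,
  nat_lit 0x75432610000007543621000000627543100000062547310000005264731000000657432100000065327140000006532704100000637452100000062745310000005374621000000527463100000032657410000006532417000000654320710000065423071000006532407100000643250710000054326071,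
  nat_lit 0x2a007184000007184000000a80002000080002000a80002,
  nat_lit 0x6543271000000165207430000065743210000006274351000000527436100000075432610000001765432000000076543210000076543210,
  nat_lit 0x0,
  nat_lit 0x3c000d00034000b0002c000b0002c000b0002c000b0002c000b0002c0000000080002000080002,
  nat_lit 0x75432610000007643251000000765324100000076542310000007654320100000764103520000076410253000007631025400000754103620000075410263000007531026400000743102650000076453210000007653421000000754632100000076354210000007536421000000756432100000076531042,
  nat_lit 0x20341070b0300400400000a037898050822e8590aa1442684908a01a7ac06c5301ba0c068c301afaf898059060151580568601431805b06e2c4107a0e40a80c811120fac04801120fac4458310001b0db8c8a6e11158780e0e3061b840c6148340600b0140240400700c0140100720c41645311160c148343d6051f5805b068ac1082c8a601515805b062424185a0741e03838c186e10318520d01802c0500901001c0300500400080d3d601641bacc4603629805456034618050c61a9da1130c4e725d8320a41a0300580a0120200380600a0080c21943486d0e2⟩ ::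
  []) (by decide +kernel)

end Pool.Agent.Lib.MP_1f96ff_gt.Ck
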