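import Pool.Agent.Lib.MP_1f96ff_gt.Ck.D

/-!
The run of one lemma of a block. The graphs have the vertices `0, …, u`; the state consists of
the pairs not known to be red (adjacent) and of the pairs not known to be blue.
-/

namespace Pool.Agent.Lib.MP_1f96ff_gt.Ck

/-- Constants, the three dictionaries, the key and the root vertex of the lemma. -/
structure Env where
  u : ℕ
  V : ℕ
  su : ℕ
  fr : ℕ
  off : ℕ
  dg : ℕ
  db : ℕ
  mb : ℕ
  dr : ℕ
  mr : ℕ
  dt : ℕ
  kt : ℕ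
  key : ℕ
  dv : ℕ
  sv : ℕ

/-- The entries off the diagonal. -/
def off (n : ℕ) : ℕ := Nat.sub (Nat.mul (ones 16 n) (Nat.pred (Nat.pow 2 n))) (ones 17 n)

theorem off_ok : ∀ n ≤ 13, ∀ x < 256,
    (off n).testBit x = decide (x / 16 < n ∧ x % 16 < n ∧ x / 16 ≠ x % 16) := by
  decide +kernel

def fld (V D x : ℕ) : ℕ := Nat.shiftRight D (Nat.mul V x)

def popu (E : Env) (r : ℕ) : ℕ := pop (row E.fr r E.su)

def popk (E : Env) (r : ℕ) : ℕ := pop (Nat.land (row E.fr r E.su) (row E.fr r E.sv))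

def rooted (E : Env) (ih : ℕ → ℕ → Bool) (kc : Bool) (r b x : ℕ) : Bool :=
  Bool.rec (motive := fun _ => Bool)
    ((fun f => (fun D => Bool.rec (motive := fun _ => Bool)
      (Bool.rec (motive := fun _ => Bool) false
        ((fun h => Bool.rec (motive := fun _ => Bool) false
          ((fun e => Bool.rec (motive := fun _ => Bool)
            (Bool.rec (motive := fun _ => Bool) false (ih r (Nat.land b (tE (Nat.mod e 227))))
              (Nat.beq (Nat.land f b) 0))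
            (cl f b r kc fun r' => ih r' b) (Nat.beq (Nat.land r e) 0)) (Nat.shiftLeft h E.su))
          (Nat.ble (Nat.add (pop (Nat.lor (row E.fr b E.su) (Nat.land (Nat.div b (Nat.div D h)) E.fr)))
            (popk E r)) (Nat.succ E.u))) (Nat.mod D 131070))
        (Nat.beq (Nat.land D (Nat.pred D)) 0))
      (cl f b r kc fun r' => ih r' b) (Nat.beq D E.dv)) (Nat.land f E.dg)) (fld E.V E.dt x))
    false (Nat.ble E.key (Nat.land (Nat.shiftRight E.kt (Nat.shiftLeft x 5)) 4294967295))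

def ruleK (E : Env) (r b x : ℕ) : Bool :=
  (fun sz => Bool.rec (motive := fun _ => Bool) false
    (Bool.rec (motive := fun _ => Bool) false
      (Bool.rec (motive := fun _ => Bool)
        (Nat.ble (Nat.add (pop (row E.fr b sz)) (popu E r)) E.u) true (Nat.beq sz E.su))
      (Nat.ble (Nat.add (pop (Nat.lor (row E.fr b sz)
        (row E.fr b (Nat.shiftLeft (Nat.land x 15) 4)))) (popk E r)) E.u))
    (Nat.testBit (upd E.off r) x)) (Nat.land x 240)

def ruleD (E : Env) (r b x : ℕ) : Bool :=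
  Bool.rec (motive := fun _ => Bool) false
    (Nat.ble (Nat.succ (Nat.add (pop (row E.fr b (Nat.shiftLeft x 4))) (popu E r))) E.u)
    (Nat.ble x E.u)

def ruleM (E : Env) (r b x : ℕ) : Bool :=
  (fun e => Bool.rec (motive := fun _ => Bool) false
    (Bool.rec (motive := fun _ => Bool) false
      (Bool.rec (motive := fun _ => Bool) false
        (Bool.rec (motive := fun _ => Bool) true false (Nat.beq (Nat.land E.fr (Nat.lor
          (Nat.lor (row E.fr r E.su) (row E.fr b (Nat.shiftLeft x 4))) e)) E.fr))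
        (Nat.beq (Nat.land (row E.fr r E.su) e) 0))
      (Nat.ble (popu E b) 3))
    (Nat.ble (Nat.succ x) E.u)) (Nat.shiftLeft 1 x)

def rule (E : Env) (t r b x : ℕ) : Bool :=
  Nat.rec (motive := fun _ => Bool) (ruleK E r b x) (fun t _ =>
    Nat.rec (motive := fun _ => Bool) (ruleD E r b x) (fun _ _ =>
      Bool.rec (motive := fun _ => Bool) (ruleM E r b x) (ruleD E r r x) (Nat.beq E.u 12)) t) t

def step (E : Env) (ih : ℕ → ℕ → ℕ → (ℕ → Bool) → Bool) (r b s : ℕ) (k : ℕ → Bool) : Bool :=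
  (fun x s' => Nat.rec (motive := fun _ => Bool)
    (cl (fld E.V E.db (Nat.mod x E.mb)) b r (k s') fun r' => ih r' b s' k) (fun t _ =>
    Nat.rec (motive := fun _ => Bool)
      (cl (fld E.V E.dr (Nat.mod x E.mr)) r b (k s') fun b' => ih r b' s' k) (fun t _ =>
      Nat.rec (motive := fun _ => Bool)
        (rooted E (fun r' b' => ih r' b' s' k) (k s') r b x) (fun t _ =>
        Nat.rec (motive := fun _ => Bool)
          (ih r (Nat.land b (tE x)) s' fun s'' => ih (Nat.land r (tE x)) b s'' k) (fun t _ =>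
          Bool.rec (motive := fun _ => Bool) false (k s') (rule E t r b x)) t) t) t)
    (Nat.land s 7)) (Nat.land (Nat.shiftRight s 3) 255) (Nat.shiftRight s 11)

def run (E : Env) (d : ℕ) : ℕ → ℕ → ℕ → (ℕ → Bool) → Bool :=
  Nat.rec (motive := fun _ => ℕ → ℕ → ℕ → (ℕ → Bool) → Bool) (fun _ _ _ _ => false)
    (fun _ ih r b s k => step E ih r b s k) d

variable {u : ℕ}

/-- A rooted pattern that does not occur in the complement of an admissible graph; the root
vertex is marked on the diagonal. -/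
def VT (Ad : SimpleGraph (Fin (u + 1)) → Prop) (f : ℕ) : Prop :=
  ∃ w : Fin (u + 1), w.1 < u ∧ f.testBit (17 * w) = true ∧
    ∀ G, Ad G → Opt G (Fin.last u) w → ¬Sub f Gᶜ

structure EOk (E : Env) (u : ℕ) (v : Fin (u + 1)) : Prop where
  le : u ≤ 12
  u' : E.u = u
  su : E.su = 16 * u
  fr : E.fr = 2 ^ (u + 1) - 1
  of : E.off = off (u + 1)
  dg : E.dg = ones 17 u
  dv : E.dv = 2 ^ (17 * v.1)
  sv : E.sv = 16 * v.1

/-- What is known about the graph during a run. -/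
structure Wd (Ad : SimpleGraph (Fin (u + 1)) → Prop) (E : Env) (v : Fin (u + 1))
    (G : SimpleGraph (Fin (u + 1))) : Prop where
  ad : Ad G
  opt : Opt G (Fin.last u) v
  mx : u ≠ 12 → MXP G
  two : u = 12 → TWOP G
  db : ∀ x, ¬Sub (fld E.V E.db (x % E.mb)) Gᶜ
  dr : ∀ x, ¬Sub (fld E.V E.dr (x % E.mr)) G
  dt : ∀ x < 256, sl 32 E.kt x < E.key → VT Ad (fld E.V E.dt x)

variable {Ad : SimpleGraph (Fin (u + 1)) → Prop} {E : Env} {v : Fin (u + 1)}
  {G : SimpleGraph (Fin (u + 1))} {r b x : ℕ}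

theorem popu_ok (hE : EOk E u v) (hr : Kn r G) : u ≤ dg G (Fin.last u) + popu E r := by
  have := le_dg (by have := hE.le; omega) hr (Fin.last u)
  rw [popu, hE.fr, hE.su]
  rw [Fin.val_last] at this
  omega

theorem popk_ok (hE : EOk E u v) (hr : Kn r G) (h : G.Adj (Fin.last u) v) :
    u + 1 ≤ kp G (Fin.last u) v + popk E r := by
  rw [popk, hE.fr, hE.su, hE.sv]
  exact le_kp (by have := hE.le; omega) hr h

theorem ble_of {a b : ℕ} (h : Nat.ble a b = true) : a ≤ b := Nat.le_of_ble_eq_true h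

theorem beq_of {a b : ℕ} (h : Nat.beq a b = true) : a = b := Nat.eq_of_beq_eq_true h

theorem shl4 (x : ℕ) : Nat.shiftLeft x 4 = 16 * x := (Nat.shiftLeft_eq x 4).trans (mul_comm _ _)

theorem ruleD_ok (hE : EOk E u v) (h : ruleD E r b x = true) {H : SimpleGraph (Fin (u + 1))}
    (hr : Kn r G) (hb : Kn b Hᶜ) : ∃ y, dg H y < dg G (Fin.last u) := by
  obtain ⟨h1, h2⟩ := br' h
  have h1 := ble_of h1
  have h2 := ble_of h2
  rw [hE.u'] at h1 h2
  refine ⟨⟨x, by omega⟩, ?_⟩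
  have h3 := dg_le (by have := hE.le; omega) hb ⟨x, by omega⟩
  have h4 := popu_ok hE hr
  rw [shl4, hE.fr] at h2
  simp only [Nat.succ_eq_add_one, Nat.add_eq] at h2 h3
  omega

theorem ruleK_ok (hE : EOk E u v) (hx : x < 256) (h : ruleK E r b x = true) (hG : Wd Ad E v G)
    (hr : Kn r G) (hb : Kn b Gᶜ) : False := by
  have hu := hE.le
  obtain ⟨h1, h2⟩ := br' h
  obtain ⟨h2, h3⟩ := br' h2
  rw [tb_upd, hE.of, off_ok _ (by omega) x hx, Bool.and_eq_true, decide_eq_true_eq] at h1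
  obtain ⟨⟨a1, a2, a3⟩, a4⟩ := h1
  have e1 : ∀ x < 256, Nat.land x 240 = 16 * (x / 16) ∧
    Nat.shiftLeft (Nat.land x 15) 4 = 16 * (x % 16) := by decide +kernel
  have h4 : G.Adj ⟨x / 16, a1⟩ ⟨x % 16, a2⟩ := hr _ _ (fun e => a3 (congrArg Fin.val e))
    (by simpa [Nat.div_add_mod] using a4)
  have h5 := kp_le (by omega) hb ⟨x / 16, a1⟩ ⟨x % 16, a2⟩
  have h6 := popk_ok hE hr hG.opt.adj
  have h2 := ble_of h2
  rw [(e1 x hx).1, (e1 x hx).2, hE.fr, hE.u'] at h2
  rw [(e1 x hx).1, hE.fr, hE.u', hE.su] at h3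
  have h7 := hG.opt.mer _ _ (by
    rcases br h3 with ⟨e, -⟩ | ⟨-, e⟩
    · rw [show (⟨x / 16, a1⟩ : Fin (u + 1)) = Fin.last u from
        Fin.ext (by have := beq_of e; simp only [Fin.val_last]; omega)]
    · have e := ble_of e
      have h8 := dg_le (by omega) hb ⟨x / 16, a1⟩
      have h9 := popu_ok hE hr
      simp only [Nat.add_eq] at e h8
      omega) h4
  simp only [Nat.add_eq] at h2 h5
  omega

theorem and_pow {a j : ℕ} (h : Nat.land a (2 ^ j) = 0) : a.testBit j = false := by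
  have := congrArg (Nat.testBit · j) h
  simpa using (show (a &&& 2 ^ j).testBit j = _ from this)

theorem ruleM_ok (hE : EOk E u v) (h : ruleM E r b x = true) (hM : MXP G)
    (hr : Kn r G) (hb : Kn b Gᶜ) : False := by
  have hu := hE.le
  obtain ⟨h1, h⟩ := br' h
  obtain ⟨h2, h⟩ := br' h
  obtain ⟨h3, h⟩ := br' h
  have h1 : x + 1 ≤ u := hE.u' ▸ ble_of h1
  have h2 := ble_of h2
  have h3 := beq_of h3
  have e : Nat.shiftLeft 1 x = 2 ^ x := Nat.one_shiftLeft x
  have h4 := dg_le (by omega) hb (Fin.last u)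
  rw [popu, hE.fr, hE.su] at h2
  rw [e, hE.fr, hE.su] at h3
  have h5 : G.Adj (Fin.last u) ⟨x, by omega⟩ := hr _ _
    (fun e => by have := congrArg Fin.val e; simp only [Fin.val_last] at this; omega)
    ((tb_row r _ ⟨x, by omega⟩).symm.trans (and_pow h3))
  rcases br h with ⟨-, h⟩ | ⟨h, -⟩
  · cases h
  refine beq_ne h (Nat.eq_of_testBit_eq fun j => ?_)
  show (_ &&& (_ ||| _ ||| _ : ℕ)).testBit j = _
  rw [e, shl4, hE.fr, hE.su, Nat.testBit_and, Nat.testBit_two_pow_sub_one]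
  by_cases hj : j < u + 1
  · rw [Nat.testBit_or, Nat.testBit_or, tb_row r _ ⟨j, hj⟩, tb_row b _ ⟨j, hj⟩,
      Nat.testBit_two_pow]
    by_contra h6
    simp only [hj, decide_true, Bool.true_and, Bool.or_eq_true, decide_eq_true_eq, not_or,
      Bool.not_eq_true] at h6
    have h7 : (⟨x, by omega⟩ : Fin (u + 1)) ≠ ⟨j, hj⟩ := fun e => h6.2 (congrArg Fin.val e)
    have h8 := (hb _ _ h7 h6.1.2).2
    exact h8 (hM _ _ _ (h4.trans h2) h5 (hr _ _ (fun e => h8 (e ▸ h5.symm)) h6.1.1) h7)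
  · simp [hj]

theorem rule_ok (hE : EOk E u v) (hx : x < 256) {t : ℕ} (h : rule E t r b x = true)
    (hG : Wd Ad E v G) (hr : Kn r G) (hb : Kn b Gᶜ) : False := by
  rcases t with _ | _ | t
  · exact ruleK_ok hE hx h hG hr hb
  · obtain ⟨y, hy⟩ := ruleD_ok hE h hr hb
    exact hy.not_ge (hG.opt.min y)
  · rcases br h with ⟨e, h⟩ | ⟨e, h⟩
    · obtain ⟨y, hy⟩ := ruleD_ok (H := Gᶜ) hE h hr (by rwa [compl_compl])
      exact hy.not_ge (hG.two (hE.u' ▸ beq_of e) y _ hG.opt.min)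
    · exact ruleM_ok hE h (hG.mx (hE.u' ▸ beq_ne e)) hr hb

theorem pow_of {D j : ℕ} (h : Nat.land D (Nat.pred D) = 0) (hj : D.testBit j = true) :
    D = 2 ^ j := by
  obtain ⟨k, rfl⟩ := (Nat.and_sub_one_eq_zero_iff_isPowerOfTwo
    (fun e : D = 0 => by simp [e] at hj)).1 h
  rw [Nat.testBit_two_pow] at hj
  rw [of_decide_eq_true hj]

theorem tb_diag {f w : ℕ} (hw : w < u) (h : f.testBit (17 * w) = true) :
    (Nat.land f (ones 17 u)).testBit (17 * w) = true := by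
  show (f &&& _).testBit _ = true
  rw [Nat.testBit_and, h, ← add_zero (17 * w), ← tb_sl' (show 0 < 17 by norm_num),
    sl_ones (by norm_num), if_pos hw]
  rfl

theorem mark : ∀ w < 13, 2 ^ (17 * w) % 131070 = 2 ^ w ∧ 2 ^ (17 * w) / 2 ^ w = 2 ^ (16 * w) ∧
    pop (Nat.pred (2 ^ w)) = w := by
  decide +kernel

/-- The result of a step: the branch is closed, or it goes on with a new state. -/
def Res (P : SimpleGraph (Fin (u + 1)) → Prop) (ih : ℕ → ℕ → Bool) (kc : Bool) (r b : ℕ) : Prop :=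
  (kc = true ∧ ∀ G, P G → Kn r G → ¬Kn b Gᶜ) ∨ ∃ r' b', ih r' b' = true ∧
    ∀ G, P G → Kn r G → Kn b Gᶜ → Kn r' G ∧ Kn b' Gᶜ

theorem res_blue (hu : u ≤ 12) {P : SimpleGraph (Fin (u + 1)) → Prop} {ih : ℕ → ℕ → Bool}
    {kc : Bool} {f : ℕ} (h : cl f b r kc (fun r' => ih r' b) = true)
    (hf : ∀ G, P G → Kn r G → Kn b Gᶜ → ¬Sub f Gᶜ) : Res P ih kc r b := by
  rcases cl_ok (n := u + 1) (by omega) h with ⟨h1, h2⟩ | ⟨r', h1, h2⟩
  · exact .inl ⟨h1, fun G a1 a2 a3 => h2 _ (hf G a1 a2 a3) a3⟩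
  · exact .inr ⟨r', b, h1, fun G a1 a2 a3 =>
      ⟨compl_compl G ▸ h2 _ (hf G a1 a2 a3) a3 (by rwa [compl_compl]), a3⟩⟩

theorem rooted_ok (hE : EOk E u v) (hx : x < 256) {ih : ℕ → ℕ → Bool} {kc : Bool}
    (h : rooted E ih kc r b x = true) : Res (Wd Ad E v) ih kc r b := by
  have hu := hE.le
  rcases br h with ⟨-, h⟩ | ⟨h0, h⟩
  · cases h
  have h0 : sl 32 E.kt x < E.key := by
    refine lt_of_not_ge fun e => ?_
    rw [Nat.ble_eq_true_of_le (m := Nat.land _ _)] at h0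
    · cases h0
    · refine e.trans (le_of_eq ?_)
      show _ = E.kt >>> (x <<< 5) &&& (2 ^ 32 - 1)
      rw [Nat.and_two_pow_sub_one_eq_mod, Nat.shiftLeft_eq, mul_comm]
      rfl
  set f := fld E.V E.dt x
  rcases br h with ⟨e, h⟩ | ⟨-, h⟩
  · refine res_blue hu h fun G hG _ _ => ?_
    obtain ⟨w, h1, h2, h3⟩ := hG.dt x hx h0
    have h4 := tb_diag h1 h2
    rw [← hE.dg, beq_of e, hE.dv, Nat.testBit_two_pow, decide_eq_true_eq] at h4
    exact h3 G hG.ad ((Fin.ext (by omega) : v = w) ▸ hG.opt)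
  obtain ⟨h1, h⟩ := br' h
  obtain ⟨h2, h⟩ := br' h
  have key : ∀ G, Wd Ad E v G → Kn r G → Kn b Gᶜ → ∃ w : Fin (u + 1), Fin.last u ≠ w ∧
      Nat.shiftLeft (Nat.mod (Nat.land f E.dg) 131070) E.su = 2 ^ (16 * u + w) ∧
      (G.Adj (Fin.last u) w → ¬Sub f Gᶜ) := fun G hG hr hb => by
    obtain ⟨w, a1, a2, a3⟩ := hG.dt x hx h0
    have a4 := pow_of (beq_of h1) (hE.dg ▸ tb_diag a1 a2)
    have a5 : Nat.mod (Nat.land f E.dg) 131070 = 2 ^ w.1 := a4 ▸ (mark w (by omega)).1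
    refine ⟨w, fun e => by rw [← e, Fin.val_last] at a1; omega, ?_, fun e => a3 G hG.ad
      ⟨e, hG.opt.min, fun z y b1 b2 => le_trans ?_ (hG.opt.mer z y b1 b2)⟩⟩
    · rw [a5, hE.su, pow_add, mul_comm (2 ^ (16 * u))]
      exact Nat.shiftLeft_eq _ _
    · have b3 := ble_of h2
      have b4 := kp_le (by omega) hb (Fin.last u) w
      have b5 := popk_ok hE hr hG.opt.adj
      have b6 : Nat.land (Nat.div b (Nat.div (Nat.land f E.dg) (2 ^ w.1))) E.fr =
          row E.fr b (16 * w) := by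
        rw [a4, show Nat.div (2 ^ (17 * w.1)) (2 ^ w.1) = _ from (mark w (by omega)).2.1]
        exact congrArg (Nat.land · _) (Nat.shiftRight_eq_div_pow _ _).symm
      rw [a5, b6, hE.fr, hE.su, hE.u'] at b3
      simp only [Nat.succ_eq_add_one, Nat.add_eq, Fin.val_last] at b3 b4
      omega
  rcases br h with ⟨e, h⟩ | ⟨-, h⟩
  · refine res_blue hu h fun G hG hr hb => ?_
    obtain ⟨w, a1, a2, a3⟩ := key G hG hr hb
    exact a3 (hr _ _ a1 (and_pow (a2 ▸ beq_of e)))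
  · obtain ⟨h3, h⟩ := br' h
    refine .inr ⟨_, _, h, fun G hG hr hb => ⟨hr, ?_⟩⟩
    obtain ⟨w, a1, a2, a3⟩ := key G hG hr hb
    rw [a2]
    refine hb.and (by omega) ((Nat.mod_lt _ (by norm_num)).trans (show 227 < 256 by norm_num))
      (a := Fin.last u) (c := w) (tE_pow (16 * u + w) (by omega)) ⟨a1, fun e => ?_⟩
    obtain ⟨_, _, -, -, a4⟩ := not_sub (a3 e) hb
    rw [beq_of h3] at a4
    simp at a4

theorem run_ok (hE : EOk E u v) (d : ℕ) : ∀ (r b s : ℕ) (k : ℕ → Bool), run E d r b s k = true →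
    (∃ s', k s' = true) ∧ ∀ G, Wd Ad E v G → Kn r G → ¬Kn b Gᶜ := by
  have hu := hE.le
  induction d with
  | zero => exact fun _ _ _ _ h => Bool.noConfusion h
  | succ d ih =>
    intro r b s k h
    have fin : ∀ s', Res (Wd Ad E v) (fun r' b' => run E d r' b' s' k) (k s') r b →
        (∃ s', k s' = true) ∧ ∀ G, Wd Ad E v G → Kn r G → ¬Kn b Gᶜ := fun s' h => by
      rcases h with ⟨h1, h2⟩ | ⟨r', b', h1, h2⟩
      · exact ⟨⟨_, h1⟩, h2⟩
      · exact ⟨(ih _ _ _ _ h1).1, fun G a1 a2 a3 =>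
          (ih _ _ _ _ h1).2 G a1 (h2 G a1 a2 a3).1 (h2 G a1 a2 a3).2⟩
    have hx : Nat.land (Nat.shiftRight s 3) 255 < 256 :=
      Nat.and_lt_two_pow (n := 8) _ (by norm_num)
    change step E (run E d) r b s k = true at h
    unfold step at h
    generalize Nat.land (Nat.shiftRight s 3) 255 = x at h hx
    generalize Nat.shiftRight s 11 = s' at h
    generalize Nat.land s 7 = t at h
    rcases t with _ | _ | _ | _ | t
    · exact fin s' (res_blue hu h fun G hG _ _ => hG.db x)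
    · refine fin s' ?_
      rcases cl_ok (n := u + 1) (by omega) h with ⟨h1, h2⟩ | ⟨b', h1, h2⟩
      · exact .inl ⟨h1, fun G a1 a2 _ => h2 _ (a1.dr x) a2⟩
      · exact .inr ⟨r, b', h1, fun G a1 a2 a3 => ⟨a2, h2 _ (a1.dr x) a2 a3⟩⟩
    · exact fin s' (rooted_ok hE hx h)
    · obtain ⟨⟨s'', h1⟩, h2⟩ := ih _ _ _ _ h
      obtain ⟨h3, h4⟩ := ih _ _ _ _ h1
      exact ⟨h3, fun G a1 a2 a3 => (a2.split (by omega) a3 hx).elim (h2 G a1 a2)
        fun e => h4 G a1 e a3⟩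
    · obtain ⟨h1, h2⟩ := br' h
      exact ⟨⟨_, h2⟩, fun G a1 a2 a3 => rule_ok hE hx h1 a1 a2 a3⟩

end Pool.Agent.Lib.MP_1f96ff_gt.Ck
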