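import Pool.Agent.Lib.MP_1f96ff_gt.Ck.E
import Pool.Agent.Lib.MP_1f96ff_gt.Sem

/-!
The dictionaries of a block: vertex splits of table entries, permuted copies.
-/

namespace Pool.Agent.Lib.MP_1f96ff_gt.Ck

/-- The bit `j` is moved to the position `16 * j`. -/
def spread (m : ℕ) : ℕ :=
  Nat.land (Nat.mul 0x1000200040008001000200040008001000200040008001 m)
    0x1000100010001000100010001000100010001000100010001

theorem tb_spread {m p : ℕ} (hm : m < 2 ^ 15) (h : (spread m).testBit p = true) :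
    p % 16 = 0 ∧ m.testBit (p / 16) = true := by
  have e1 : 0x1000200040008001000200040008001000200040008001 = ones 15 13 := by decide +kernel
  have e2 : 0x1000100010001000100010001000100010001000100010001 = ones 16 13 := by decide +kernel
  rw [spread, e1, e2] at h
  change (_ &&& _ : ℕ).testBit p = true at h
  rw [Nat.testBit_and, Bool.and_eq_true] at h
  obtain ⟨h1, h2⟩ := h
  rw [← Nat.div_add_mod p 16, ← tb_sl' (Nat.mod_lt p (by norm_num)), sl_ones (by norm_num)] at h2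
  split_ifs at h2 with h3
  · have h4 := Nat.testBit_one_eq_true_iff_self_eq_zero.1 h2
    rw [show p = 15 * (p / 16) + p / 16 by omega, ← tb_sl' (by omega), sl_rep (by norm_num) hm,
      if_pos h3] at h1
    exact ⟨h4, h1⟩
  · simp at h2

theorem tb_shl {a s p : ℕ} : (Nat.shiftLeft a s).testBit p = true ↔
    s ≤ p ∧ a.testBit (p - s) = true := by
  show (a <<< s).testBit p = true ↔ _
  simp

theorem tb_lor {a b p : ℕ} : (Nat.lor a b).testBit p = true ↔
    a.testBit p = true ∨ b.testBit p = true := by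
  show (a ||| b).testBit p = true ↔ _
  simp

theorem tb_land {a b p : ℕ} : (Nat.land a b).testBit p = true ↔
    a.testBit p = true ∧ b.testBit p = true := by
  show (a &&& b).testBit p = true ↔ _
  simp

theorem tb_lt {m k j : ℕ} (hm : m < 2 ^ k) (h : m.testBit j = true) : j < k := by
  by_contra e
  rw [Nat.testBit_lt_two_pow (hm.trans_le (Nat.pow_le_pow_right two_pos (not_lt.1 e)))] at h
  cases h

/-- The new vertex `p` is joined to `a` and takes over the neighbours of `a` in `m`. -/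
def split (x a p m : ℕ) : ℕ :=
  Nat.lor (upd x (Nat.lor (Nat.shiftLeft m (Nat.shiftLeft a 4)) (Nat.shiftLeft (spread m) a)))
    (Nat.shiftLeft (Nat.lor m (Nat.shiftLeft 1 a)) (Nat.shiftLeft p 4))

variable {K : ∀ n : ℕ, SimpleGraph (Fin n) → Prop}

/-- No graph of the class contains the pattern. -/
def NK (K : ∀ n : ℕ, SimpleGraph (Fin n) → Prop) (p x : ℕ) : Prop :=
  ∀ H : SimpleGraph (Fin p), Sub x H → ¬K p H

theorem split_ok (hK : KI K) {x a p m : ℕ} (hp : p ≤ 12) (ha : a < p) (hm : m < 2 ^ 14)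
    (h : NK K p x) : NK K (p + 1) (split x a p m) := fun H h1 h2 => by
  have h3 : ∀ j : Fin (p + 1), j.1 < p → m.testBit j = true ∨ a = j → H.Adj (Fin.last p) j :=
    fun j hj e => h1 _ _ (fun e => by rw [← e, Fin.val_last] at hj; omega) (tb_lor.2 (.inr
      (tb_shl.2 (by
        rw [shl4, Fin.val_last, Nat.add_sub_cancel_left, tb_lor, tb_shl]
        exact ⟨by omega, e.imp id fun e => by simp [e]⟩))))
  have h4 : ∀ i j : Fin (p + 1), i ≠ j → i.1 < p → j.1 < p → x.testBit (16 * i + j) = true →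
      H.Adj i j ∨ (i = ⟨a, by omega⟩ ∧ H.Adj (Fin.last p) j) ∨
        (j = ⟨a, by omega⟩ ∧ H.Adj (Fin.last p) i) := fun i j hij hi hj e => by
    by_cases e1 : (Nat.lor (Nat.shiftLeft m (Nat.shiftLeft a 4))
      (Nat.shiftLeft (spread m) a)).testBit (16 * i + j) = true
    · rw [tb_lor, tb_shl, tb_shl, shl4] at e1
      rcases e1 with ⟨e1, e2⟩ | ⟨e1, e2⟩
      · have := tb_lt hm e2
        refine .inr (.inl ⟨Fin.ext (by simp only; omega), h3 j hj (.inl ?_)⟩)
        rwa [show 16 * i.1 + j - 16 * a = j by omega] at e2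
      · obtain ⟨e3, e4⟩ := tb_spread (hm.trans (by norm_num)) e2
        refine .inr (.inr ⟨Fin.ext (by simp only; omega), h3 i hi (.inl ?_)⟩)
        rwa [show (16 * i.1 + j - a) / 16 = i by omega] at e4
    · exact .inl (h1 i j hij (tb_lor.2 (.inl (by rw [tb_upd, e, Bool.eq_false_iff.2 e1]; rfl))))
  have h5 := hK.contr H (SimpleGraph.fromRel fun i j : Fin (p + 1) =>
    i.1 < p ∧ j.1 < p ∧ x.testBit (16 * i + j) = true) (Fin.last p) ⟨a, by omega⟩
    (h3 _ ha (.inr rfl)) (fun i j e => by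
      obtain ⟨e1, ⟨e2, e3, e4⟩ | ⟨e2, e3, e4⟩⟩ := (SimpleGraph.fromRel_adj _ _ _).1 e
      · exact ⟨fun e => by rw [e, Fin.val_last] at e2; omega, h4 i j e1 e2 e3 e4⟩
      · exact ⟨fun e => by rw [e, Fin.val_last] at e3; omega,
          (h4 j i e1.symm e2 e3 e4).imp SimpleGraph.Adj.symm Or.symm⟩) h2
  refine h (Gr p x) (fun i j hij e => (SimpleGraph.fromRel_adj _ _ _).2 ⟨hij, .inl e⟩)
    (hK.mono _ _ Fin.castSucc (Fin.castSucc_injective p) (fun i j e => ?_) h5)
  obtain ⟨e1, e2⟩ := (SimpleGraph.fromRel_adj _ _ _).1 e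
  exact (SimpleGraph.fromRel_adj _ _ _).2 ⟨(Fin.castSucc_injective p).ne e1,
    e2.imp (fun e => ⟨i.2, j.2, e⟩) fun e => ⟨j.2, i.2, e⟩⟩

def spl (ih : ℕ → ℕ → ℕ → (ℕ → ℕ → ℕ → ℕ) → ℕ) (x p s : ℕ) (k : ℕ → ℕ → ℕ → ℕ) : ℕ :=
  ih (split x (Nat.mod (Nat.land s 15) p) p (Nat.land (Nat.shiftRight s 4) 16383)) (Nat.succ p)
    (Nat.shiftRight s 18) k

/-- Read `c` splits from the stream. -/
def splits (c : ℕ) : ℕ → ℕ → ℕ → (ℕ → ℕ → ℕ → ℕ) → ℕ :=
  Nat.rec (motive := fun _ => ℕ → ℕ → ℕ → (ℕ → ℕ → ℕ → ℕ) → ℕ) (fun x p s k => k x p s)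
    (fun _ ih x p s k => spl ih x p s k) c

theorem splits_ok (hK : KI K) (c : ℕ) : ∀ (x p s : ℕ) (k : ℕ → ℕ → ℕ → ℕ), 0 < p →
    (p ≤ 13 → NK K p x) → ∃ x' p' s', (p' ≤ 13 → NK K p' x') ∧ splits c x p s k = k x' p' s' := by
  induction c with
  | zero => exact fun x p s k _ h => ⟨x, p, s, h, rfl⟩
  | succ c ih =>
    exact fun x p s k h0 h => ih _ (p + 1) _ k p.succ_pos fun e => split_ok hK (by omega)
      (Nat.mod_lt _ h0) (Nat.and_lt_two_pow (n := 14) _ (by norm_num)) (h (by omega))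

variable {n : ℕ}

theorem tb_off (hn : n ≤ 13) {a b : Fin n} (h : a ≠ b) : (off n).testBit (16 * a + b) = true := by
  have := Fin.val_ne_of_ne h
  rw [off_ok n hn _ (by omega), decide_eq_true_eq]
  omega

theorem NK.not_sub (hK : KI K) (hn : n ≤ 13) {p x : ℕ} (h : NK K p x) (hp : p ≤ n)
    {G : SimpleGraph (Fin n)} (hG : K n G) : ¬Sub (Nat.land x (off n)) G := fun e =>
  h (G.comap (Fin.castLE hp)) (fun _ _ h1 h2 => e _ _ ((Fin.castLE_injective hp).ne h1)
    (tb_land.2 ⟨h2, tb_off hn ((Fin.castLE_injective hp).ne h1)⟩))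
    (hK.mono G _ _ (Fin.castLE_injective hp) (fun _ _ e => e) hG)

/-- All entries of `x` are entries of `y`. -/
def Le (n x y : ℕ) : Prop :=
  ∀ a b : Fin n, x.testBit (16 * a + b) = true → y.testBit (16 * a + b) = true

theorem tb_fld (V D x p : ℕ) : (fld V D x).testBit p = D.testBit (V * x + p) :=
  Nat.testBit_shiftRight D

def push (V A x : ℕ) : ℕ := Nat.lor (Nat.shiftLeft A V) x

theorem le_push0 (V A x : ℕ) : Le n x (fld V (push V A x) 0) := fun a b h => by
  rw [tb_fld, mul_zero, zero_add]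
  exact tb_lor.2 (.inr h)

theorem le_push (V A x f : ℕ) : Le n (fld V A f) (fld V (push V A x) (f + 1)) := fun a b h => by
  rw [tb_fld] at h ⊢
  refine tb_lor.2 (.inl (tb_shl.2 ⟨by rw [Nat.mul_succ]; omega, ?_⟩))
  rwa [Nat.mul_succ, add_right_comm, Nat.add_sub_cancel]

/-- No graph of the class `C` contains the pattern. -/
def NS (C : SimpleGraph (Fin n) → Prop) (x : ℕ) : Prop := ∀ G, C G → ¬Sub x G

theorem NS.mono {C : SimpleGraph (Fin n) → Prop} {x y : ℕ} (h : NS C x) (e : Le n x y) : NS C y :=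
  fun G h1 h2 => h G h1 fun a b h3 h4 => h2 a b h3 (e a b h4)

def gw1 (n V o : ℕ) (bas lst : ℕ → ℕ) (ih : ℕ → ℕ → ℕ) (s A : ℕ) : ℕ :=
  Bool.rec (motive := fun _ => ℕ)
    (ih (Nat.shiftRight s 18) (push V A (lst (Nat.land (Nat.shiftRight s 1) 131071))))
    ((fun x => splits (Nat.land (Nat.shiftRight s 14) 15) x (Nat.shiftRight x 208)
      (Nat.shiftRight s 18) fun x p s => ih s (push V A
        (Bool.rec (motive := fun _ => ℕ) o (Nat.land x o) (Nat.ble p n))))
      (bas (Nat.land (Nat.shiftRight s 1) 8191)))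
    (Nat.beq (Nat.land s 1) 0)

/-- Read `c` patterns from the stream. -/
def gw (n V o : ℕ) (bas lst : ℕ → ℕ) (c : ℕ) : ℕ → ℕ → ℕ :=
  Nat.rec (motive := fun _ => ℕ → ℕ → ℕ) (fun _ A => A)
    (fun _ ih s A => gw1 n V o bas lst ih s A) c

theorem gw_ok (hK : KI K) (hn : n ≤ 13) {C : SimpleGraph (Fin n) → Prop} {bas lst : ℕ → ℕ}
    (hC : ∀ G, C G → K n G) (hb : ∀ b, 0 < bas b >>> 208 ∧ NK K (bas b >>> 208) (bas b))
    (hl : ∀ i, NS C (lst i)) (ho : NS C (off n)) (V c : ℕ) : ∀ s A m : ℕ,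
    (∀ f < m, NS C (fld V A f)) → ∀ f < m + c, NS C (fld V (gw n V (off n) bas lst c s A) f) := by
  induction c with
  | zero => exact fun _ _ _ h => h
  | succ c ih =>
    intro s A m h
    have h1 : ∀ s x, NS C x → ∀ f < m + (c + 1),
        NS C (fld V (gw n V (off n) bas lst c s (push V A x)) f) := fun s x hx f hf =>
      ih s _ (m + 1) (fun f hf => by
        cases f with
        | zero => exact hx.mono (le_push0 V A x)
        | succ f => exact (h f (by omega)).mono (le_push V A x f)) f (by omega)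
    show ∀ f < _, NS C (fld V (gw1 n V (off n) bas lst (gw n V (off n) bas lst c) s A) f)
    unfold gw1
    cases Nat.beq (Nat.land s 1) 0 with
    | false => exact h1 _ _ (hl _)
    | true =>
      obtain ⟨x, p, s', h2, h3⟩ := splits_ok hK (Nat.land (Nat.shiftRight s 14) 15) _ _
        (Nat.shiftRight s 18) (fun x p s => gw n V (off n) bas lst c s (push V A
          (Bool.rec (motive := fun _ => ℕ) (off n) (Nat.land x (off n)) (Nat.ble p n))))
        (hb (Nat.land (Nat.shiftRight s 1) 8191)).1 fun _ => (hb _).2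
      refine (congrArg (fun N => ∀ f < m + (c + 1), NS C (fld V N f)) h3).mpr (h1 _ _ ?_)
      cases e : Nat.ble p n with
      | false => exact ho
      | true => exact fun G hG => (h2 ((ble_of e).trans hn)).not_sub hK hn (ble_of e) (hC G hG)

theorem fld_bt {N f i j : ℕ} : (fld (16 * n) N f).testBit (16 * i + j) = true ↔ bt n N f i j := by
  rw [tb_fld, bt, mul_add, mul_assoc, add_assoc]

theorem papp_le {m P A f : ℕ} (hn : n ≤ 13) (h : pchk n (mkCst n m) P = true) (hf : f < m) :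
    ∃ π : Equiv.Perm (Fin n), (∀ k : Fin n, bt n P f k k → π k = k) ∧ ∀ a b : Fin n,
      (fld (16 * n) A f).testBit (16 * a + b) = true →
        (fld (16 * n) (papp n (mkCst n m) P A) f).testBit (16 * π a + π b) = true := by
  obtain ⟨π, h1, h2⟩ := pchk_ok (by omega) h hf
  exact ⟨π, h2, fun a b e => fld_bt.2
    (papp_ok (by omega) hf a.2 b.2 (π a).2 (π b).2 (h1 a) (h1 b) (fld_bt.1 e))⟩

theorem NS.papp {C : SimpleGraph (Fin n) → Prop} {m P A f : ℕ} (hn : n ≤ 13)
    (hC : ∀ G (π : Equiv.Perm (Fin n)), C G → C (G.comap π))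
    (h : pchk n (mkCst n m) P = true) (hf : f < m) (h1 : NS C (fld (16 * n) A f)) :
    NS C (fld (16 * n) (papp n (mkCst n m) P A) f) := by
  obtain ⟨π, -, h2⟩ := papp_le (A := A) hn h hf
  exact fun G hG e => h1 _ (hC G π hG) fun a b h3 h4 => e _ _ (π.injective.ne h3) (h2 a b h4)

/-- Move every second group of `t` bits by `w` bits. -/
def spr (t w M x : ℕ) : ℕ :=
  Nat.lor (Nat.land x M) (Nat.shiftLeft (Nat.land (Nat.shiftRight x t) M) w)

def expand (V x : ℕ) : ℕ :=
  Nat.rec (motive := fun _ => ℕ → ℕ → ℕ) (fun _ x => x)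
    (fun i ih c x => ih (Nat.mul 2 c) (spr (Nat.shiftLeft 52 i) (Nat.shiftLeft V i)
      (Nat.mul (ones (Nat.shiftLeft V (Nat.succ i)) c) (Nat.pred (Nat.pow 2 (Nat.shiftLeft 52 i))))
      x)) 8 1 x

def dig (V i x : ℕ) : ℕ :=
  spr (Nat.shiftLeft 4 i) (Nat.shiftLeft 16 i) (Nat.mul (ones V 256) (Nat.mod (Nat.mul
    (ones (Nat.shiftLeft 32 i) 8) (Nat.pred (Nat.pow 2 (Nat.shiftLeft 4 i)))) (Nat.pow 2 V))) x

def bar (c0 C j w P : ℕ) : ℕ :=
  Nat.add P (Nat.mul (Nat.land P (Nat.mul (Nat.land (Nat.shiftRight C j) c0) w)) w)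

/-- Permutation matrices from digits (the result is checked, so no proof is needed). -/
def perms (V c0 x : ℕ) : ℕ :=
  (fun C => bar c0 C 3 255 (bar c0 C 2 15 (bar c0 C 1 3 (Nat.add c0 (Nat.land C c0)))))
    (dig V 0 (dig V 1 (dig V 2 (dig V 3 (expand V x)))))

end Pool.Agent.Lib.MP_1f96ff_gt.Ck
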