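import Pool.Agent.Lib.MP_1f96ff_gt.Ck.F

/-!
The rooted dictionary, the lemmas of a block and their runs.
-/

namespace Pool.Agent.Lib.MP_1f96ff_gt.Ck

variable {u : ℕ} {Ad : SimpleGraph (Fin (u + 1)) → Prop}

theorem VT.mono {x y : ℕ} (h : VT Ad x) (e : Le (u + 1) x y) : VT Ad y := by
  obtain ⟨w, h1, h2, h3⟩ := h
  refine ⟨w, h1, ?_, fun G a1 a2 a3 => h3 G a1 a2 fun a b a4 a5 => a3 a b a4 (e a b a5)⟩
  rw [show 17 * w.1 = 16 * w + w by ring] at h2 ⊢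
  exact e w w h2

section

variable {n : ℕ} (G : SimpleGraph (Fin n)) (π : Equiv.Perm (Fin n))

theorem dg_comap (x : Fin n) : dg (G.comap π) x = dg G (π x) :=
  Set.ncard_preimage_of_injective_subset_range (s := {j | G.Adj (π x) j}) π.injective
    (by simp)

theorem kp_comap (x y : Fin n) : kp (G.comap π) x y = kp G (π x) (π y) :=
  Set.ncard_preimage_of_injective_subset_range (s := {j | G.Adj (π x) j ∨ G.Adj (π y) j})
    π.injective (by simp)

theorem Opt.comap {a b : Fin n} (h : Opt G (π a) (π b)) : Opt (G.comap π) a b where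
  adj := h.adj
  min x := by rw [dg_comap, dg_comap]; exact h.min _
  mer z w h1 h2 := by
    rw [dg_comap, dg_comap] at h1
    rw [kp_comap, kp_comap]
    exact h.mer _ _ h1 h2

end

theorem VT.papp {m P A f : ℕ} (hu : u ≤ 12)
    (hC : ∀ G (π : Equiv.Perm (Fin (u + 1))), Ad G → Ad (G.comap π))
    (h : pchk (u + 1) (mkCst (u + 1) m) P = true) (hf : f < m) (h0 : bt (u + 1) P f u u)
    (h1 : VT Ad (fld (16 * (u + 1)) A f)) :
    VT Ad (fld (16 * (u + 1)) (papp (u + 1) (mkCst (u + 1) m) P A) f) := by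
  obtain ⟨π, h2, h3⟩ := papp_le (A := A) (by omega) h hf
  obtain ⟨w, h4, h5, h6⟩ := h1
  have h7 := h2 (Fin.last u) h0
  refine ⟨π w, Fin.val_lt_last fun e => ?_, ?_, fun G a1 a2 a3 =>
    h6 _ (hC G π a1) (Opt.comap G π (h7.symm ▸ a2)) fun a b a4 a5 => ?_⟩
  · rw [π.injective (e.trans h7.symm), Fin.val_last] at h4
    omega
  · rw [show ∀ w : ℕ, 17 * w = 16 * w + w from fun w => by ring] at h5 ⊢
    exact h3 w w h5
  · exact ⟨a4, (a3 _ _ (π.injective.ne a4) (h3 a b a5)).2⟩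

/-- All entries of the matrix. -/
def mat (n : ℕ) : ℕ := Nat.mul (ones 16 n) (Nat.pred (Nat.pow 2 n))

theorem le_mat {n : ℕ} (hn : n ≤ 13) (x : ℕ) : Le n x (Nat.land x (mat n)) := fun a b h => by
  have : 2 ^ n ≤ 2 ^ 13 := Nat.pow_le_pow_right two_pos hn
  refine tb_land.2 ⟨h, ?_⟩
  rw [← tb_sl' (by omega), show sl 16 (mat n) a = 2 ^ n - 1 from
    (sl_rep (by norm_num) (show 2 ^ n - 1 < _ by omega) n a).trans (if_pos a.2)]
  simp

def la (V M : ℕ) (l : List (ℕ × ℕ)) (A : ℕ) : ℕ :=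
  List.rec (motive := fun _ => ℕ) A (fun p _ ih => push V ih (Nat.land p.1 M)) l

def lk (l : List (ℕ × ℕ)) (T : ℕ) : ℕ :=
  List.rec (motive := fun _ => ℕ) T (fun p _ ih => push 32 ih p.2) l

theorem sl_push {w T k : ℕ} (hk : k < 2 ^ w) :
    sl w (push w T k) 0 = k ∧ ∀ x, sl w (push w T k) (x + 1) = sl w T x := by
  have e : push w T k = 2 ^ w * T + k := by
    rw [Nat.two_pow_add_eq_or_of_lt hk, mul_comm, ← Nat.shiftLeft_eq]
    rfl
  refine ⟨by rw [e, sl_zero', Nat.mul_add_mod, Nat.mod_eq_of_lt hk], fun x => ?_⟩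
  rw [e, sl_succ, Nat.mul_add_div (Nat.two_pow_pos w), Nat.div_eq_of_lt hk, add_zero]

/-- The fields with a key below `k` are valid. -/
def DV (Ad : SimpleGraph (Fin (u + 1)) → Prop) (k A T m : ℕ) : Prop :=
  ∀ x < 256, sl 32 T x < k → x < m ∧ VT Ad (fld (16 * (u + 1)) A x)

/-- The entries with a key below `k` are valid. -/
def LV (Ad : SimpleGraph (Fin (u + 1)) → Prop) (k : ℕ) (l : List (ℕ × ℕ)) : Prop :=
  ∀ p ∈ l, p.2 < 2 ^ 32 ∧ (p.2 < k → VT Ad p.1)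

theorem DV.la (hu : u ≤ 12) {k A T m : ℕ} (h : DV Ad k A T m) {l : List (ℕ × ℕ)}
    (hl : LV Ad k l) : DV Ad k (la (16 * (u + 1)) (mat (u + 1)) l A) (lk l T) (m + l.length) := by
  induction l with
  | nil => exact h
  | cons p l ih =>
    obtain ⟨h1, h2⟩ := hl p List.mem_cons_self
    intro x hx h3
    cases x with
    | zero => exact ⟨by simp, ((h2 ((sl_push h1).1 ▸ h3)).mono (le_mat (by omega) _)).mono
        (le_push0 _ _ _)⟩
    | succ x =>
      obtain ⟨h4, h5⟩ := ih (fun p hp => hl p (List.mem_cons_of_mem _ hp)) x (by omega)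
        ((sl_push h1).2 x ▸ h3)
      exact ⟨Nat.succ_lt_succ h4, h5.mono (le_push _ _ _ _)⟩

def pad : ℕ := Nat.pred (Nat.pow 2 8192)

theorem dv_pad {k : ℕ} (hk : k < 2 ^ 32) : DV Ad k 0 pad 0 := fun x hx h => by
  have : ∀ x < 256, sl 32 pad x = 2 ^ 32 - 1 := by decide +kernel
  rw [this x hx] at h
  omega

def key (e : ℕ) : ℕ := Nat.land (Nat.shiftRight e 208) 16777215

def kq (e q : ℕ) : ℕ := Nat.add (Nat.shiftLeft (key e) 8) q

theorem kq_eq (e q : ℕ) : kq e q = key e * 256 + q := congrArg (· + q) (Nat.shiftLeft_eq _ 8)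

theorem kq_lt (e : ℕ) {q : ℕ} (hq : q < 256) : kq e q < 2 ^ 32 := by
  have : key e < 2 ^ 24 := Nat.and_lt_two_pow _ (by norm_num)
  rw [kq_eq]
  omega

def gi1 (et : ℕ → ℕ) (ih : ℕ → List (ℕ × ℕ) → List (ℕ × ℕ)) (s : ℕ) (l : List (ℕ × ℕ)) :
    List (ℕ × ℕ) :=
  (fun e => ih (Nat.shiftRight s 18) ((e, kq e 255) :: l)) (et (Nat.land s 262143))

/-- Read `c` references to the table. -/
def gi (et : ℕ → ℕ) (c : ℕ) : ℕ → List (ℕ × ℕ) → List (ℕ × ℕ) :=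
  Nat.rec (motive := fun _ => ℕ → List (ℕ × ℕ) → List (ℕ × ℕ)) (fun _ l => l)
    (fun _ ih s l => gi1 et ih s l) c

def gt1 (et : ℕ → ℕ) (V A T : ℕ) (ih : ℕ → List (ℕ × ℕ) → List (ℕ × ℕ)) (s : ℕ)
    (l : List (ℕ × ℕ)) : List (ℕ × ℕ) :=
  Bool.rec (motive := fun _ => List (ℕ × ℕ))
    ((fun x => ih (Nat.shiftRight s 18) ((fld V A x,
      Nat.land (Nat.shiftRight T (Nat.shiftLeft x 5)) 4294967295) :: l))
      (Nat.land (Nat.shiftRight s 1) 255))
    ((fun e => ih (Nat.shiftRight s 18) ((e, kq e 255) :: l))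
      (et (Nat.land (Nat.shiftRight s 1) 131071)))
    (Nat.beq (Nat.land s 1) 0)

/-- Read `c` references to the table or to lemmas of the block. -/
def gt (et : ℕ → ℕ) (V A T c : ℕ) : ℕ → List (ℕ × ℕ) → List (ℕ × ℕ) :=
  Nat.rec (motive := fun _ => ℕ → List (ℕ × ℕ) → List (ℕ × ℕ)) (fun _ l => l)
    (fun _ ih s l => gt1 et V A T ih s l) c

/-- The table entries with a key below `k` are valid. -/
def Hy (Ad : SimpleGraph (Fin (u + 1)) → Prop) (et : ℕ → ℕ) (k : ℕ) : Prop :=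
  ∀ i, key (et i) < k → VT Ad (et i)

variable {et : ℕ → ℕ} {k : ℕ}

theorem LV.ref (h : Hy Ad et (k / 256)) {l : List (ℕ × ℕ)} (hl : LV Ad k l) (i : ℕ) :
    LV Ad k ((et i, kq (et i) 255) :: l) :=
  List.forall_mem_cons.2 ⟨⟨kq_lt _ (by norm_num), fun e => h i (by
    rw [kq_eq] at e
    omega)⟩, hl⟩

theorem gi_ok (h : Hy Ad et (k / 256)) (c : ℕ) : ∀ s l, LV Ad k l → LV Ad k (gi et c s l) := by
  induction c with
  | zero => exact fun _ _ h => h
  | succ c ih => exact fun s l hl => ih _ _ (hl.ref h _)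

theorem key_eq (T x : ℕ) :
    Nat.land (Nat.shiftRight T (Nat.shiftLeft x 5)) 4294967295 = sl 32 T x := by
  show T >>> (x <<< 5) &&& (2 ^ 32 - 1) = _
  rw [Nat.and_two_pow_sub_one_eq_mod, Nat.shiftLeft_eq, mul_comm]
  rfl

theorem gt_ok (h : Hy Ad et (k / 256)) {A T m : ℕ} (hA : DV Ad k A T m) (c : ℕ) : ∀ s l,
    LV Ad k l → LV Ad k (gt et (16 * (u + 1)) A T c s l) ∧
      (gt et (16 * (u + 1)) A T c s l).length = c + l.length := by
  induction c with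
  | zero => exact fun _ _ h => ⟨h, (zero_add _).symm⟩
  | succ c ih =>
    intro s l hl
    have h1 : ∀ s p, LV Ad k (p :: l) → LV Ad k (gt et (16 * (u + 1)) A T c s (p :: l)) ∧
        (gt et (16 * (u + 1)) A T c s (p :: l)).length = c + 1 + l.length := fun s p hp =>
      ⟨(ih _ _ hp).1, (ih _ _ hp).2.trans (by rw [List.length_cons]; omega)⟩
    show LV Ad k (gt1 et _ A T (gt et _ A T c) s l) ∧ (gt1 et _ A T (gt et _ A T c) s l).length = _
    unfold gt1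
    cases Nat.beq (Nat.land s 1) 0 with
    | true => exact h1 _ _ (hl.ref h _)
    | false =>
      refine h1 _ _ (List.forall_mem_cons.2 ⟨?_, hl⟩)
      rw [key_eq]
      exact ⟨sl_lt _ _ _, fun e => (hA _ (Nat.and_lt_two_pow (n := 8) _ (by norm_num)) e).2⟩

def tog1 (ih : ℕ → ℕ → List (ℕ × ℕ)) (k : ℕ → ℕ → List (ℕ × ℕ)) (Q H : ℕ) : List (ℕ × ℕ) :=
  (fun c => Bool.rec (motive := fun _ => List (ℕ × ℕ))
    (ih (Nat.xor Q (Nat.shiftLeft 1 c)) (Nat.shiftRight H 8)) (k Q (Nat.shiftRight H 8))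
    (Nat.beq c 255)) (Nat.land H 255)

/-- Toggle the bits listed in the stream. -/
def tog (k : ℕ → ℕ → List (ℕ × ℕ)) (c : ℕ) : ℕ → ℕ → List (ℕ × ℕ) :=
  Nat.rec (motive := fun _ => ℕ → ℕ → List (ℕ × ℕ)) k (fun _ ih Q H => tog1 ih k Q H) c

theorem tog_ok (k : ℕ → ℕ → List (ℕ × ℕ)) (c : ℕ) : ∀ Q H, ∃ Q' H', tog k c Q H = k Q' H' := by
  induction c with
  | zero => exact fun Q H => ⟨Q, H, rfl⟩
  | succ c ih =>
    intro Q H
    show ∃ Q' H', tog1 (tog k c) k Q H = _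
    unfold tog1
    beta_reduce
    cases Nat.beq (Nat.land H 255) 255 with
    | true => exact ⟨_, _, rfl⟩
    | false => exact ih _ _

/-- Read `c` local lemmas. -/
def locs (e : ℕ) (k : ℕ → ℕ → List (ℕ × ℕ) → List (ℕ × ℕ)) (c : ℕ) :
    ℕ → ℕ → ℕ → List (ℕ × ℕ) → List (ℕ × ℕ) :=
  Nat.rec (motive := fun _ => ℕ → ℕ → ℕ → List (ℕ × ℕ) → List (ℕ × ℕ)) (fun _ H q l => k H q l)
    (fun _ ih Q H q l =>
      tog (fun Q H => ih Q H (Nat.succ q) ((Q, kq e (Nat.land q 255)) :: l)) 200 Q H) c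

/-- `l'` extends `l` by entries with small keys. -/
def Ext (l l' : List (ℕ × ℕ)) : Prop := l ⊆ l' ∧ ∀ p ∈ l', p ∈ l ∨ p.2 < 2 ^ 32

theorem Ext.cons {l l' : List (ℕ × ℕ)} {p : ℕ × ℕ} (h : Ext (p :: l) l') (hp : p.2 < 2 ^ 32) :
    Ext l l' :=
  ⟨fun _ e => h.1 (List.mem_cons_of_mem _ e), fun q hq => (h.2 q hq).elim
    (fun e => (List.mem_cons.1 e).elim (fun e => .inr (e ▸ hp)) .inl) .inr⟩

theorem locs_ok (e : ℕ) (k : ℕ → ℕ → List (ℕ × ℕ) → List (ℕ × ℕ)) (c : ℕ) : ∀ Q H q l,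
    ∃ H' q' l', Ext l l' ∧ locs e k c Q H q l = k H' q' l' := by
  induction c with
  | zero => exact fun _ H q l => ⟨H, q, l, ⟨fun _ h => h, fun _ => .inl⟩, rfl⟩
  | succ c ih =>
    intro Q H q l
    obtain ⟨Q', H', h1⟩ := tog_ok
      (fun Q H => locs e k c Q H (Nat.succ q) ((Q, kq e (Nat.land q 255)) :: l)) 200 Q H
    obtain ⟨H', q', l', h2, h3⟩ := ih Q' H' (Nat.succ q) ((Q', kq e (Nat.land q 255)) :: l)
    exact ⟨H', q', l', h2.cons (kq_lt _ (Nat.and_lt_two_pow (n := 8) _ (by norm_num))),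
      h1.trans h3⟩

/-- Read `c` groups of lemmas. -/
def grp (et : ℕ → ℕ) (c : ℕ) : ℕ → ℕ → ℕ → List (ℕ × ℕ) → List (ℕ × ℕ) :=
  Nat.rec (motive := fun _ => ℕ → ℕ → ℕ → List (ℕ × ℕ) → List (ℕ × ℕ)) (fun _ _ _ l => l)
    (fun _ ih i H q l => (fun e => locs e (ih (Nat.succ i)) (Nat.land H 255) e
      (Nat.shiftRight H 8) q ((e, kq e 254) :: l)) (et i)) c

theorem grp_ok (et : ℕ → ℕ) (c : ℕ) : ∀ i H q l, Ext l (grp et c i H q l) ∧
    ∀ j, i ≤ j → j < i + c → (et j, kq (et j) 254) ∈ grp et c i H q l := by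
  induction c with
  | zero => exact fun _ _ _ _ => ⟨⟨fun _ h => h, fun _ => .inl⟩, fun _ _ _ => by omega⟩
  | succ c ih =>
    intro i H q l
    obtain ⟨H', q', l', h1, h2⟩ := locs_ok (et i) (grp et c (i + 1)) (Nat.land H 255) (et i)
      (Nat.shiftRight H 8) q ((et i, kq (et i) 254) :: l)
    rw [show grp et (c + 1) i H q l = _ from h2]
    obtain ⟨h3, h4⟩ := ih (i + 1) H' q' l'
    refine ⟨Ext.cons ⟨fun _ e => h3.1 (h1.1 e), fun p hp => (h3.2 p hp).elim (h1.2 p) .inr⟩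
      (kq_lt _ (by norm_num)), fun j a1 a2 => ?_⟩
    rcases a1.eq_or_lt with rfl | a1
    exacts [h3.1 (h1.1 List.mem_cons_self), h4 j a1 (by omega)]

/-- The transposed matrix. -/
def tr (n fr f : ℕ) : ℕ :=
  orl (fun a => Nat.shiftLeft (spread (row fr f (Nat.shiftLeft a 4))) a) n

theorem tb_tr {n f : ℕ} (hn : n ≤ 13) {a b : Fin n}
    (h : (tr n (2 ^ n - 1) f).testBit (16 * a + b) = true) : f.testBit (16 * b + a) = true := by
  obtain ⟨c, hc, h1⟩ := (tb_orl _ _ _).1 h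
  obtain ⟨h2, h3⟩ := tb_shl.1 h1
  obtain ⟨h4, h5⟩ := tb_spread ((row_lt hn _ _).trans (by norm_num)) h3
  rwa [show (16 * a.1 + b - c) / 16 = a by omega, tb_row, shl4, show c = b by omega] at h5

def Env.set (E : Env) (k d s : ℕ) : Env :=
  Env.casesOn (motive := fun _ => Env) E
    fun a1 a2 a3 a4 a5 a6 a7 a8 a9 a10 a11 a12 _ _ _ =>
      ⟨a1, a2, a3, a4, a5, a6, a7, a8, a9, a10, a11, a12, k, d, s⟩

/-- The run of the lemma `f` with the key `k`. -/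
def one (E : Env) (f k s : ℕ) (c : ℕ → Bool) : Bool :=
  (fun D => Bool.rec (motive := fun _ => Bool)
    (Bool.rec (motive := fun _ => Bool) false
      ((fun h => run (E.set k D (Nat.shiftLeft (pop (Nat.pred h)) 4)) 200
        (Nat.land E.off (tE (Nat.mod (Nat.shiftLeft h E.su) 227)))
        (upd E.off (Nat.lor f (tr (Nat.succ E.u) E.fr f))) s c) (Nat.mod D 131070))
      (Nat.beq (Nat.land D (Nat.pred D)) 0))
    false (Nat.beq D 0)) (Nat.land f E.dg)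

/-- The part of the environment that is common to all lemmas of a block. -/
structure EB (Ad : SimpleGraph (Fin (u + 1)) → Prop) (E : Env) : Prop where
  le : u ≤ 12
  u' : E.u = u
  su : E.su = 16 * u
  fr : E.fr = 2 ^ (u + 1) - 1
  of : E.off = off (u + 1)
  dg : E.dg = ones 17 u
  mx : ∀ G, Ad G → u ≠ 12 → MXP G
  two : ∀ G, Ad G → u = 12 → TWOP G
  db : ∀ G, Ad G → ∀ x, ¬Sub (fld E.V E.db (x % E.mb)) Gᶜ
  dr : ∀ G, Ad G → ∀ x, ¬Sub (fld E.V E.dr (x % E.mr)) G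

theorem one_ok {E : Env} (hE : EB Ad E) {f k s : ℕ} {c : ℕ → Bool} (h : one E f k s c = true) :
    (∃ s', c s' = true) ∧
      ((∀ x < 256, sl 32 E.kt x < k → VT Ad (fld E.V E.dt x)) → VT Ad f) := by
  have hu := hE.le
  rcases br h with ⟨-, h⟩ | ⟨h0, h⟩
  · cases h
  obtain ⟨h1, h⟩ := br' h
  obtain ⟨j, h2⟩ := Nat.exists_testBit_of_ne_zero (beq_ne h0)
  have h3 := pow_of (beq_of h1) h2
  obtain ⟨h4, h5⟩ := tb_land.1 h2
  rw [hE.dg, ← Nat.div_add_mod j 17, ← tb_sl' (Nat.mod_lt j (by norm_num)),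
    sl_ones (by norm_num)] at h5
  split_ifs at h5 with h6
  swap
  · simp at h5
  obtain ⟨v, rfl⟩ : ∃ v, j = 17 * v :=
    ⟨j / 17, by have := Nat.testBit_one_eq_true_iff_self_eq_zero.1 h5; omega⟩
  rw [Nat.mul_div_cancel_left _ (by norm_num)] at h6
  have h7 : Nat.mod (Nat.land f E.dg) 131070 = 2 ^ v := h3 ▸ (mark v (by omega)).1
  beta_reduce at h
  rw [h7, (mark v (by omega)).2.2, shl4, h3] at h
  obtain ⟨h8, h9⟩ := run_ok (Ad := Ad) (E := E.set k (2 ^ (17 * v)) (16 * v)) (v := ⟨v, by omega⟩)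
    ⟨hu, hE.u', hE.su, hE.fr, hE.of, hE.dg, rfl, rfl⟩ _ _ _ _ _ h
  refine ⟨h8, fun hd => ⟨⟨v, by omega⟩, h6, h4, fun G a1 a2 a3 => h9 G
    ⟨a1, a2, hE.mx G a1, hE.two G a1, hE.db G a1, hE.dr G a1, hd⟩ ?_ fun a b a4 a5 => ?_⟩⟩
  · rw [show Nat.shiftLeft (2 ^ v) E.su = 2 ^ (16 * u + v) by
      rw [hE.su, pow_add, mul_comm (2 ^ (16 * u))]
      exact Nat.shiftLeft_eq _ _]
    refine Kn.and (by omega) (fun a b a4 a5 => ?_)
      ((Nat.mod_lt _ (by norm_num)).trans (show 227 < 256 by norm_num))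
      (a := Fin.last u) (c := ⟨v, by omega⟩) (tE_pow (16 * u + v) (by omega)) a2.adj
    rw [hE.of, tb_off (by omega) a4] at a5
    cases a5
  · rw [tb_upd, hE.of, tb_off (by omega) a4, Bool.true_and, Bool.not_eq_false', tb_lor, hE.u',
      hE.fr] at a5
    exact a5.elim (a3 a b a4) fun e => (a3 b a a4.symm (tb_tr (by omega) e)).symm

def runs (E : Env) (l : List (ℕ × ℕ)) : ℕ → Bool :=
  List.rec (motive := fun _ => ℕ → Bool) (fun s => Nat.beq s 1)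
    (fun p _ ih s => one E p.1 p.2 s ih) l

theorem runs_ok {E : Env} (hE : EB Ad E) (l : List (ℕ × ℕ)) : ∀ s, runs E l s = true →
    ∀ p ∈ l, (∀ x < 256, sl 32 E.kt x < p.2 → VT Ad (fld E.V E.dt x)) → VT Ad p.1 := by
  induction l with
  | nil => exact fun _ _ _ h => nomatch h
  | cons p l ih =>
    intro s h
    obtain ⟨⟨s', h1⟩, h2⟩ := one_ok hE h
    exact List.forall_mem_cons.2 ⟨h2, ih s' h1⟩

end Pool.Agent.Lib.MP_1f96ff_gt.Ck
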