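import Pool.Agent.Lib.MP_1f96ff_gt.Ck.G
import Pool.Agent.Lib.MP_1f96ff_gt.Inv

/-!
The check of a block and of a list of blocks; the statement for a whole table.
-/

namespace Pool.Agent.Lib.MP_1f96ff_gt.Ck

structure Blk where
  hd : ℕ
  h : ℕ
  eb : ℕ
  pb : ℕ
  er : ℕ
  pr : ℕ
  ei : ℕ
  et : ℕ
  pt : ℕ
  cs : ℕ

/-- The check of a block with `g` groups and `nb`, `nr`, `ni`, `nt` entries. -/
def blk1 (u n V o M : ℕ) (bas lst et : ℕ → ℕ) (B : Blk) (lo g nb nr ni nt : ℕ) : Bool :=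
  (fun cb cr ct L => (fun pb pr pt lt um =>
    Bool.rec (motive := fun _ => Bool) false (Bool.rec (motive := fun _ => Bool) false
      (Bool.rec (motive := fun _ => Bool) false (Bool.rec (motive := fun _ => Bool) false
        (Bool.rec (motive := fun _ => Bool) false (Bool.rec (motive := fun _ => Bool) false
          (runs ⟨u, V, Nat.mul 16 u, Nat.pred (Nat.pow 2 n), o, ones 17 u,
            papp n cb pb (gw n V o bas lst nb B.eb 0), nb,
            papp n cr pr (gw n V o bas (fun _ => o) nr B.er 0), nr,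
            la V M L (la V M (gi et ni B.ei []) (papp n ct pt (la V M lt 0))),
            lk L (lk (gi et ni B.ei []) (lk lt pad)), 0, 0, 0⟩ L B.cs)
          (Nat.beq (Nat.land pt um) um)) (pchk n ct pt)) (pchk n cr pr)) (pchk n cb pb))
      (Nat.ble 1 nr)) (Nat.ble 1 nb))
    (perms V cb.c0 B.pb) (perms V cr.c0 B.pr) (perms V ct.c0 B.pt)
    (gt et V (la V M L 0) (lk L pad) nt B.et []) (Nat.shiftLeft (ones V nt) (Nat.mul 17 u)))
    (mkCst n nb) (mkCst n nr) (mkCst n nt) (grp et g lo B.h 0 [])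

def blk (u : ℕ) (bas lst et : ℕ → ℕ) (B : Blk) (lo : ℕ) : Bool :=
  frc (Nat.land (Nat.shiftRight B.hd 8) 511) fun nb =>
    frc (Nat.land (Nat.shiftRight B.hd 17) 511) fun nr => frc (Nat.shiftRight B.hd 35) fun nt =>
      blk1 u (Nat.succ u) (Nat.mul 16 (Nat.succ u)) (off (Nat.succ u)) (mat (Nat.succ u)) bas lst
        et B lo (Nat.land B.hd 255) nb nr (Nat.land (Nat.shiftRight B.hd 26) 511) nt

def nxt (u : ℕ) (bas lst et : ℕ → ℕ) (B : Blk) (ih : ℕ → Bool) (lo : ℕ) : Bool :=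
  Bool.rec (motive := fun _ => Bool) false (frc (Nat.add lo (Nat.land B.hd 255)) ih)
    (blk u bas lst et B lo)

/-- The blocks prove the entries from `lo` to `hi`. -/
def chks (u : ℕ) (bas lst et : ℕ → ℕ) (hi : ℕ) (l : List Blk) : ℕ → Bool :=
  List.rec (motive := fun _ => ℕ → Bool) (fun lo => Nat.ble hi lo)
    (fun B _ ih lo => nxt u bas lst et B ih lo) l

structure Ctx (K : ∀ n : ℕ, SimpleGraph (Fin n) → Prop) (u : ℕ) (bas lst : ℕ → ℕ) (len : ℕ) :
    Prop where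
  ki : KI K
  ge : 6 ≤ u
  le : u ≤ 12
  top : ¬K 7 ⊤
  bas : ∀ b, 0 < bas b >>> 208 ∧ ¬K (bas b >>> 208) (Gr (bas b >>> 208) (bas b))
  lst : ∀ i, (∃ j < len, lst i = lst j) ∨ lst i = off (u + 1)

/-- Admissible graphs that are not covered by the list. -/
def Bad (K : ∀ n : ℕ, SimpleGraph (Fin n) → Prop) (n : ℕ) (lst : ℕ → ℕ) (len : ℕ)
    (G : SimpleGraph (Fin n)) : Prop := Adm K n G ∧ ¬Concl n lst len G

variable {K : ∀ n : ℕ, SimpleGraph (Fin n) → Prop} {u len : ℕ} {bas lst et : ℕ → ℕ}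

theorem sub_iff {n M : ℕ} {G : SimpleGraph (Fin n)} : Sub M G ↔ Gr n M ≤ G :=
  ⟨fun h a b e => (Gr_adj.1 e).2.elim (h a b (Gr_adj.1 e).1)
    fun e' => (h b a (Gr_adj.1 e).1.symm e').symm, fun h _ _ e e' => h (Gr_adj.2 ⟨e, .inl e'⟩)⟩

theorem dg_eq {n : ℕ} (G : SimpleGraph (Fin n)) (x : Fin n) : MP_1f96ff_gt.dg G x = dg G x := by
  rw [MP_1f96ff_gt.dg, dg, ← Set.ncard_coe_finset]
  simp

theorem kk_eq {n : ℕ} {G : SimpleGraph (Fin n)} {z w : Fin n} (h : G.Adj z w) :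
    kk G z w + 2 = kp G z w := by
  have e : {j | G.Adj z j ∨ G.Adj w j} =
      insert z (insert w {y | y ≠ z ∧ y ≠ w ∧ (G.Adj z y ∨ G.Adj w y)}) := by
    ext y
    by_cases h1 : y = z
    · simp [h1, h.symm]
    · by_cases h2 : y = w
      · simp [h2, h]
      · simp [h1, h2]
  rw [kk, kp, e, Set.ncard_insert_of_notMem (by simp [h.ne]),
    Set.ncard_insert_of_notMem (by simp), ← Set.ncard_coe_finset]
  simp

theorem opt_of {n : ℕ} {G : SimpleGraph (Fin n)} {a b : Fin n} (h : MP_1f96ff_gt.Opt G a b) :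
    Opt G a b where
  adj := h.adj
  min x := dg_eq G _ ▸ dg_eq G _ ▸ h.deg x
  mer z w h1 h2 := by
    have := h.con z w ((dg_eq G _).symm ▸ (dg_eq G _).symm ▸ h1) h2
    rw [← kk_eq h.adj, ← kk_eq h2]
    omega

theorem Ctx.off (h : Ctx K u bas lst len) {G : SimpleGraph (Fin (u + 1))} (hG : K _ G) :
    ¬Sub (off (u + 1)) G := fun e => by
  have h7 : 7 ≤ u + 1 := by have := h.ge; omega
  exact h.top (h.ki.mono G _ _ (Fin.castLE_injective h7) (fun a b e' => by
    have := (Fin.castLE_injective h7).ne e'.ne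
    exact e _ _ this (tb_off (by have := h.le; omega) this)) hG)

theorem Ctx.inv (h : Ctx K u bas lst len) (G : SimpleGraph (Fin (u + 1)))
    (π : Equiv.Perm (Fin (u + 1))) (e : Bad K _ lst len G) : Bad K _ lst len (G.comap π) :=
  ⟨e.1.comap h.ki π, fun e' => e.2 (e'.of_comap π)⟩

theorem blk1_ok (h : Ctx K u bas lst len) {B : Blk} {lo g nb nr ni nt : ℕ}
    (e : blk1 u (u + 1) (16 * (u + 1)) (off (u + 1)) (mat (u + 1)) bas lst et B lo g nb nr ni nt =
      true) (i : ℕ) (h1 : lo ≤ i) (h2 : i < lo + g)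
    (h3 : Hy (Bad K (u + 1) lst len) et (key (et i))) : VT (Bad K (u + 1) lst len) (et i) := by
  have hu := h.le
  obtain ⟨e1, e⟩ := br' e
  obtain ⟨e2, e⟩ := br' e
  obtain ⟨e3, e⟩ := br' e
  obtain ⟨e4, e⟩ := br' e
  obtain ⟨e5, e⟩ := br' e
  obtain ⟨e6, e⟩ := br' e
  have hb : ∀ b, 0 < bas b >>> 208 ∧ NK K (bas b >>> 208) (bas b) := fun b =>
    ⟨(h.bas b).1, fun H a1 a2 => (h.bas b).2 (h.ki.le (sub_iff.1 a1) a2)⟩
  have a1 := runs_ok (Ad := Bad K (u + 1) lst len) ⟨hu, rfl, rfl, rfl, rfl, rfl,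
    fun G a _ x y z b => a.1.mx (by omega) x y z ((dg_eq G x).symm ▸ b),
    fun G a _ x y b => dg_eq G _ ▸ dg_eq Gᶜ _ ▸ a.1.two (by omega) x y
      fun z => (dg_eq G _).symm ▸ (dg_eq G _).symm ▸ b z,
    fun G a x => NS.papp (C := fun G => Bad K (u + 1) lst len Gᶜ) (by omega)
      (fun G π a => (compl_comap G π).symm ▸ h.inv _ π a) e3 (Nat.mod_lt x (ble_of e1))
      (gw_ok h.ki (by omega) (fun G a => compl_compl G ▸ a.1.blue) hb (fun i G a b => by
        rcases h.lst i with ⟨j, c, d⟩ | d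
        · exact a.2 ⟨j, c, 1, fun x y e => (compl_compl G).symm ▸ sub_iff.1 (d ▸ b) e⟩
        · exact h.off (compl_compl G ▸ a.1.blue) (d ▸ b))
        (fun G a => h.off (compl_compl G ▸ a.1.blue)) _ nb B.eb 0 0 nofun _
        ((zero_add nb).symm ▸ Nat.mod_lt x (ble_of e1))) Gᶜ
        (show Bad K _ lst len Gᶜᶜ by rwa [compl_compl]),
    fun G a x => NS.papp (by omega) h.inv e4 (Nat.mod_lt x (ble_of e2))
      (gw_ok h.ki (by omega) (fun G a => a.1.red) hb (fun _ G a => h.off a.1.red)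
        (fun G a => h.off a.1.red) _ nr B.er 0 0 nofun _
        ((zero_add nr).symm ▸ Nat.mod_lt x (ble_of e2))) G a⟩ _ _ e
  obtain ⟨a2, a3⟩ := grp_ok et g lo B.h 0 []
  set L := grp et g lo B.h 0 []
  have a4 : ∀ p ∈ L, p.2 < 2 ^ 32 := fun p hp => (a2.2 p hp).resolve_left nofun
  have a5 : ∀ k, Hy (Bad K (u + 1) lst len) et (k / 256) → ∀ p ∈ L, p.2 = k →
      VT (Bad K (u + 1) lst len) p.1 := fun k => by
    induction k using Nat.strong_induction_on with
    | _ k ih =>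
      rintro hk p hp rfl
      have b1 : LV (Bad K (u + 1) lst len) p.2 L := fun q hq => ⟨a4 q hq, fun b => ih _ b
        (fun i c => hk i (c.trans_le (Nat.div_le_div_right b.le))) q hq rfl⟩
      obtain ⟨b2, b3⟩ := gt_ok hk ((dv_pad (a4 p hp)).la hu b1) nt B.et [] nofun
      have b4 := (dv_pad (a4 p hp)).la hu b2
      rw [b3, zero_add, List.length_nil, add_zero] at b4
      refine a1 p hp fun x hx b => (DV.la hu (DV.la hu (m := nt) (fun x hx b => ?_)
        (gi_ok hk ni B.ei [] nofun)) b1 x hx b).2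
      obtain ⟨b5, b6⟩ := b4 x hx b
      refine ⟨b5, b6.papp hu h.inv e5 b5
        ((tb_land (b := Nat.shiftLeft (ones (16 * (u + 1)) nt) (Nat.mul 17 u))).1 ?_).1⟩
      rw [beq_of e6, tb_shl, show 16 * ((u + 1) * x + u) + u = 16 * (u + 1) * x + 0 + 17 * u by
        ring, show Nat.mul 17 u = 17 * u from rfl, Nat.add_sub_cancel, ← tb_sl' (by omega),
        sl_ones (by omega), if_pos b5]
      exact ⟨by omega, rfl⟩
  refine a5 _ ?_ _ (a3 i h1 h2) rfl
  rwa [kq_eq, show (key (et i) * 256 + 254) / 256 = key (et i) by omega]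

/-- The entries from `lo` to `hi` follow from the entries with smaller keys. -/
def Rng (u : ℕ) (bas lst : ℕ → ℕ) (len : ℕ) (et : ℕ → ℕ) (lo hi : ℕ) : Prop :=
  ∀ K, Ctx K u bas lst len → ∀ i, lo ≤ i → i < hi →
    Hy (Bad K (u + 1) lst len) et (key (et i)) → VT (Bad K (u + 1) lst len) (et i)

theorem chks_ok {hi : ℕ} (l : List Blk) : ∀ {lo}, chks u bas lst et hi l lo = true →
    Rng u bas lst len et lo hi := by
  induction l with
  | nil => exact fun h _ _ i h1 h2 => absurd ((ble_of h).trans h1) h2.not_ge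
  | cons B l ih =>
    intro lo h K hK i h1 h2
    obtain ⟨h3, h4⟩ := br' h
    rw [frc_eq] at h4
    by_cases e : i < lo + Nat.land B.hd 255
    · simp only [blk, frc_eq] at h3
      exact blk1_ok hK h3 i h1 e
    · exact ih h4 K hK i (not_lt.1 e) h2

theorem Rng.trans {a b c : ℕ} (h : Rng u bas lst len et a b) (h' : Rng u bas lst len et b c) :
    Rng u bas lst len et a c := fun K hK i h1 h2 =>
  (lt_or_ge i b).elim (h K hK i h1) fun e => h' K hK i e h2

theorem Rng.holds {N : ℕ} (h : Rng u bas lst len et 0 N) (hN : ∀ i, ∃ j < N, et i = et j)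
    (hK : Ctx K u bas lst len) (i : ℕ) :
    ∃ v < u, (et i).testBit (17 * v) = true ∧ Holds K (u + 1) lst len (et i) v := by
  have h1 : ∀ k i, key (et i) = k → VT (Bad K (u + 1) lst len) (et i) := fun k => by
    induction k using Nat.strong_induction_on with
    | _ k ih =>
      rintro i rfl
      obtain ⟨j, hj, e⟩ := hN i
      rw [e] at ih ⊢
      exact h K hK j j.zero_le hj fun i hi => ih _ hi i rfl
  obtain ⟨w, h2, h3, h4⟩ := h1 _ i rfl
  refine ⟨w, h2, h3, fun G a b h5 h6 h7 h8 h9 => by_contra fun e => h4 G ⟨h7, e⟩ ?_ (sub_iff.2 h9)⟩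
  rw [← show a = Fin.last u from Fin.ext (by rw [Fin.val_last]; omega), ← show b = w from Fin.ext h6]
  exact opt_of h8

/-- A table: chunks of 64 entries of 256 bits in a binary tree. -/
inductive Tb
  | lf : ℕ → Tb
  | nd : Tb → Tb → Tb

noncomputable def Tb.go (t : Tb) : ℕ → ℕ :=
  Tb.rec (motive := fun _ => ℕ → ℕ) (fun x _ => x) (fun _ _ l r j =>
    Bool.rec (motive := fun _ => ℕ) (r (Nat.shiftRight j 1)) (l (Nat.shiftRight j 1))
      (Nat.beq (Nat.land j 1) 0)) t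

/-- The entry number `i % N`. -/
noncomputable def tget (t : Tb) (N i : ℕ) : ℕ :=
  (fun j => Nat.land (Nat.shiftRight (t.go (Nat.shiftRight j 6))
    (Nat.shiftLeft (Nat.land j 63) 8)) (Nat.pred (Nat.pow 2 256))) (Nat.mod i N)

theorem tget_mod (t : Tb) {N : ℕ} (h : 0 < N) (i : ℕ) : ∃ j < N, tget t N i = tget t N j :=
  ⟨i % N, Nat.mod_lt i h, congrArg (fun j => Nat.land (Nat.shiftRight (t.go (Nat.shiftRight j 6))
    (Nat.shiftLeft (Nat.land j 63) 8)) (Nat.pred (Nat.pow 2 256))) (Nat.mod_mod i N).symm⟩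

end Pool.Agent.Lib.MP_1f96ff_gt.Ck
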