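import Pool.Agent.Lib.MP_1f96ff_gt.Ck.D11_0
import Pool.Agent.Lib.MP_1f96ff_gt.Ck.D11_1

namespace Pool.Agent.Lib.MP_1f96ff_gt.Ck

set_option maxRecDepth 100000

theorem rng11 : Rng 10 bas lst11 434 et11 0 2898 :=
  rng11_0.trans
  (rng11_1)

theorem holds11 {K : ∀ n : ℕ, SimpleGraph (Fin n) → Prop} (hK : KI K) (h7 : ¬K 7 ⊤)
    (hb : ∀ b, 0 < bas b >>> 208 ∧ ¬K (bas b >>> 208) (Gr (bas b >>> 208) (bas b))) (i : ℕ) :
    ∃ v < 10, (et11 i).testBit (17 * v) = true ∧ Holds K (10 + 1) lst11 434 (et11 i) v :=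
  rng11.holds (tget_mod _ (by decide)) ⟨hK, by decide, by decide, h7, hb, fun i => .inl (tget_mod _ (by decide) i)⟩ i

end Pool.Agent.Lib.MP_1f96ff_gt.Ck
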