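import Pool.Agent.Lib.MP_1f96ff_gt.Ck.D12_0
import Pool.Agent.Lib.MP_1f96ff_gt.Ck.D12_1
import Pool.Agent.Lib.MP_1f96ff_gt.Ck.D12_2
import Pool.Agent.Lib.MP_1f96ff_gt.Ck.D12_3
import Pool.Agent.Lib.MP_1f96ff_gt.Ck.D12_4
import Pool.Agent.Lib.MP_1f96ff_gt.Ck.D12_5
import Pool.Agent.Lib.MP_1f96ff_gt.Ck.D12_6
import Pool.Agent.Lib.MP_1f96ff_gt.Ck.D12_7
import Pool.Agent.Lib.MP_1f96ff_gt.Ck.D12_8
import Pool.Agent.Lib.MP_1f96ff_gt.Ck.D12_9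
import Pool.Agent.Lib.MP_1f96ff_gt.Ck.D12_10
import Pool.Agent.Lib.MP_1f96ff_gt.Ck.D12_11
import Pool.Agent.Lib.MP_1f96ff_gt.Ck.D12_12
import Pool.Agent.Lib.MP_1f96ff_gt.Ck.D12_13
import Pool.Agent.Lib.MP_1f96ff_gt.Ck.D12_14
import Pool.Agent.Lib.MP_1f96ff_gt.Ck.D12_15
import Pool.Agent.Lib.MP_1f96ff_gt.Ck.D12_16
import Pool.Agent.Lib.MP_1f96ff_gt.Ck.D12_17
import Pool.Agent.Lib.MP_1f96ff_gt.Ck.D12_18
import Pool.Agent.Lib.MP_1f96ff_gt.Ck.D12_19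
import Pool.Agent.Lib.MP_1f96ff_gt.Ck.D12_20
import Pool.Agent.Lib.MP_1f96ff_gt.Ck.D12_21
import Pool.Agent.Lib.MP_1f96ff_gt.Ck.D12_22
import Pool.Agent.Lib.MP_1f96ff_gt.Ck.D12_23
import Pool.Agent.Lib.MP_1f96ff_gt.Ck.D12_24
import Pool.Agent.Lib.MP_1f96ff_gt.Ck.D12_25
import Pool.Agent.Lib.MP_1f96ff_gt.Ck.D12_26
import Pool.Agent.Lib.MP_1f96ff_gt.Ck.D12_27
import Pool.Agent.Lib.MP_1f96ff_gt.Ck.D12_28

namespace Pool.Agent.Lib.MP_1f96ff_gt.Ck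

set_option maxRecDepth 100000

theorem rng12 : Rng 11 bas lst12 1504 et12 0 34159 :=
  rng12_0.trans
  (rng12_1.trans
  (rng12_2.trans
  (rng12_3.trans
  (rng12_4.trans
  (rng12_5.trans
  (rng12_6.trans
  (rng12_7.trans
  (rng12_8.trans
  (rng12_9.trans
  (rng12_10.trans
  (rng12_11.trans
  (rng12_12.trans
  (rng12_13.trans
  (rng12_14.trans
  (rng12_15.trans
  (rng12_16.trans
  (rng12_17.trans
  (rng12_18.trans
  (rng12_19.trans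
  (rng12_20.trans
  (rng12_21.trans
  (rng12_22.trans
  (rng12_23.trans
  (rng12_24.trans
  (rng12_25.trans
  (rng12_26.trans
  (rng12_27.trans
  (rng12_28))))))))))))))))))))))))))))

theorem holds12 {K : ∀ n : ℕ, SimpleGraph (Fin n) → Prop} (hK : KI K) (h7 : ¬K 7 ⊤)
    (hb : ∀ b, 0 < bas b >>> 208 ∧ ¬K (bas b >>> 208) (Gr (bas b >>> 208) (bas b))) (i : ℕ) :
    ∃ v < 11, (et12 i).testBit (17 * v) = true ∧ Holds K (11 + 1) lst12 1504 (et12 i) v :=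
  rng12.holds (tget_mod _ (by decide)) ⟨hK, by decide, by decide, h7, hb, fun i => .inl (tget_mod _ (by decide) i)⟩ i

end Pool.Agent.Lib.MP_1f96ff_gt.Ck
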