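import Pool.Agent.Lib.MP_1f96ff_gt.Ck.D13_0
import Pool.Agent.Lib.MP_1f96ff_gt.Ck.D13_1
import Pool.Agent.Lib.MP_1f96ff_gt.Ck.D13_2
import Pool.Agent.Lib.MP_1f96ff_gt.Ck.D13_3
import Pool.Agent.Lib.MP_1f96ff_gt.Ck.D13_4
import Pool.Agent.Lib.MP_1f96ff_gt.Ck.D13_5
import Pool.Agent.Lib.MP_1f96ff_gt.Ck.D13_6
import Pool.Agent.Lib.MP_1f96ff_gt.Ck.D13_7
import Pool.Agent.Lib.MP_1f96ff_gt.Ck.D13_8
import Pool.Agent.Lib.MP_1f96ff_gt.Ck.D13_9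
import Pool.Agent.Lib.MP_1f96ff_gt.Ck.D13_10

namespace Pool.Agent.Lib.MP_1f96ff_gt.Ck

set_option maxRecDepth 100000

theorem rng13 : Rng 12 bas lst13 0 et13 0 27466 :=
  rng13_0.trans
  (rng13_1.trans
  (rng13_2.trans
  (rng13_3.trans
  (rng13_4.trans
  (rng13_5.trans
  (rng13_6.trans
  (rng13_7.trans
  (rng13_8.trans
  (rng13_9.trans
  (rng13_10))))))))))

theorem holds13 {K : ∀ n : ℕ, SimpleGraph (Fin n) → Prop} (hK : KI K) (h7 : ¬K 7 ⊤)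
    (hb : ∀ b, 0 < bas b >>> 208 ∧ ¬K (bas b >>> 208) (Gr (bas b >>> 208) (bas b))) (i : ℕ) :
    ∃ v < 12, (et13 i).testBit (17 * v) = true ∧ Holds K (12 + 1) lst13 0 (et13 i) v :=
  rng13.holds (tget_mod _ (by decide)) ⟨hK, by decide, by decide, h7, hb, fun i => .inr rfl⟩ i

end Pool.Agent.Lib.MP_1f96ff_gt.Ck
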