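import Pool.Agent.Lib.MP_1f96ff_gt.Ck.TB

namespace Pool.Agent.Lib.MP_1f96ff_gt.Ck

set_option maxRecDepth 100000

noncomputable def et8t : Tb :=
  (.lf (nat_lit 0x60000000000000000000000000040000000000000000000010000000000000005000000000000000000000000000000200000000000000001000000000000000400000000000000000000000000000000001000000000000100000000000000030000000000000000000000000000000000000008000000010000000000000002000000000000000000000001000000000000000000000003000000000000000100000000000000000000000000000000000000000004000100000000000000000000000000000000000000020000000000000000000000010001))

noncomputable def et8 : ℕ → ℕ := tget et8t 7

end Pool.Agent.Lib.MP_1f96ff_gt.Ck
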