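import Pool.Agent.Lib.MP_1f96ff_gt.Ck.TB

namespace Pool.Agent.Lib.MP_1f96ff_gt.Ck

set_option maxRecDepth 100000

noncomputable def et9t : Tb :=
  (.lf (nat_lit 0xf000000000000000000000080000000100000000400000001000000000000000e000000000000000000100000000000300000000400000001000000000000000d000000000000000000200000000000100010000400000001000000000000000c000000000000000000040000000000100000000c00000001000000000000000b000000000000000000080000000000100000000400040001000000000000000a000000000000000000010000000000100000000400000003000000000000000400000000000000000000000000400010000000040000000100000000000000020000000000000000000200000000001000000004000000010001000000000009000000000000000000000080000000000000000200010001000000000000000800000000000000000000000000400000000000020001000100000000000000070000000000000000000000000000002000000002000100010000000000000006000000000000000000020000000000000000000a0001000100000000000000050000000000000000000900000000000000000002000100030000000000000003000000000000000000000000000000000010000200010001000000000000000100000000000000000001000000000000000000020005000100000000000000000000000000000000000600000000000000000002000100010001))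

noncomputable def et9 : ℕ → ℕ := tget et9t 16

end Pool.Agent.Lib.MP_1f96ff_gt.Ck
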